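import Mathlib

/-!
Geodetic graphs: definition, a criterion, invariance under isomorphism.
-/

set_option autoImplicit false

namespace Pool.Agent.LibGeo

open SimpleGraph

/-- A graph is geodetic if it is connected and every two vertices are joined by exactly one
shortest path. -/
def Geodetic {V : Type} (G : SimpleGraph V) : Prop :=
  G.Connected ∧ ∀ u v : V, ∃! p : G.Path u v, (p : G.Walk u v).length = G.dist u v

/-- A graph is 2-connected if it has at least three vertices, is connected, and stays connected
when any one vertex is removed. -/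
def TwoConnected {V : Type} (G : SimpleGraph V) : Prop :=
  3 ≤ Nat.card V ∧ G.Connected ∧ ∀ x : V, (G.induce {x}ᶜ).Connected

/-- All distances are at most `d`. -/
def DiamLE {V : Type} (G : SimpleGraph V) (d : ℕ) : Prop := ∀ u v : V, G.dist u v ≤ d

section Criterion

variable {V : Type} {G : SimpleGraph V} {D : V → V → ℕ}

/-- The local condition on a candidate `D` for the distance. -/
def Local (G : SimpleGraph V) (D : V → V → ℕ) : Prop :=
  (∀ v, D v v = 0) ∧ ∀ u v, u ≠ v → ∃ w, G.Adj u w ∧ D w v + 1 = D u v ∧
    ∀ w', G.Adj u w' → w' ≠ w → D u v ≤ D w' v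

theorem Local.le_succ (h : Local G D) {u w v : V} (ha : G.Adj u w) : D u v ≤ D w v + 1 := by
  by_cases huv : u = v
  · subst huv; rw [h.1]; exact Nat.zero_le _
  · obtain ⟨w0, h1, h2, h3⟩ := h.2 u v huv
    by_cases hw : w = w0
    · subst hw; omega
    · have := h3 w ha hw; omega

theorem Local.le_length (h : Local G D) {u v : V} (p : G.Walk u v) : D u v ≤ p.length := by
  induction p with
  | nil => rw [h.1]; exact Nat.zero_le _
  | @cons u w v ha p ih =>
    rw [Walk.length_cons]
    have := h.le_succ (v := v) ha
    exact this.trans (Nat.add_le_add_right ih 1)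

theorem Local.exists_walk (h : Local G D) (v : V) : ∀ (n : ℕ) (u : V), D u v = n →
    ∃ p : G.Walk u v, p.length = n := by
  intro n
  induction n with
  | zero =>
    intro u hu
    have : u = v := by
      by_contra huv
      obtain ⟨w0, h1, h2, h3⟩ := h.2 u v huv
      omega
    subst this
    exact ⟨Walk.nil, rfl⟩
  | succ n ih =>
    intro u hu
    have huv : u ≠ v := by
      rintro rfl
      rw [h.1] at hu
      omega
    obtain ⟨w0, h1, h2, h3⟩ := h.2 u v huv
    obtain ⟨p, hp⟩ := ih w0 (by omega)
    exact ⟨Walk.cons h1 p, by rw [Walk.length_cons, hp]⟩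

theorem Local.connected (h : Local G D) [Nonempty V] : G.Connected := by
  rw [connected_iff]
  refine ⟨fun u v => ?_, inferInstance⟩
  obtain ⟨p, _⟩ := h.exists_walk v _ u rfl
  exact ⟨p⟩

theorem Local.dist_eq (h : Local G D) (u v : V) : G.dist u v = D u v := by
  obtain ⟨p, hp⟩ := h.exists_walk v _ u rfl
  apply le_antisymm
  · rw [← hp]; exact dist_le p
  · obtain ⟨q, hq⟩ := Reachable.exists_walk_length_eq_dist ⟨p⟩
    rw [← hq]
    exact h.le_length q

theorem Local.unique (h : Local G D) {u v : V} (p q : G.Walk u v) (hp : p.length = D u v)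
    (hq : q.length = D u v) : p = q := by
  induction p with
  | nil =>
    rw [h.1] at hq
    cases q with
    | nil => rfl
    | cons => simp at hq
  | @cons u w v ha p ih =>
    have huv : u ≠ v := by
      rintro rfl
      rw [h.1, Walk.length_cons] at hp
      omega
    obtain ⟨w0, h1, h2, h3⟩ := h.2 u v huv
    rw [Walk.length_cons] at hp
    have hw : w = w0 := by
      by_contra hne
      have := h3 w ha hne
      have := h.le_length p
      omega
    cases q with
    | nil => exact absurd rfl huv
    | @cons _ w' _ hb q =>
      rw [Walk.length_cons] at hq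
      have hw' : w' = w0 := by
        by_contra hne
        have := h3 w' hb hne
        have := h.le_length q
        omega
      subst hw
      subst hw'
      rw [ih q (by omega) (by omega)]

theorem Local.geodetic (h : Local G D) [Nonempty V] : Geodetic G := by
  refine ⟨h.connected, fun u v => ?_⟩
  obtain ⟨p, hp, hlen⟩ := h.connected.exists_path_of_dist u v
  refine ⟨⟨p, hp⟩, hlen, fun q hq => ?_⟩
  apply Subtype.ext
  apply h.unique
  · rw [hq, h.dist_eq]
  · rw [hlen, h.dist_eq]

end Criterion

end Pool.Agent.LibGeo
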