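import Pool.Agent.LibGeo.Star

/-!
The list of the vertices of the geodetic graph of a graph on `{0, ..., n-1}`, with codes that are
pairs of pairs of numbers.
-/

set_option autoImplicit false

namespace Pool.Agent.LibGeo

open SimpleGraph

/-- codes of vertices -/
abbrev Code : Type := (ℕ × ℕ) × (ℕ × ℕ)

/-- the edges `(i, j)`, `i < j`, of the graph with three additional vertices `n, n+1, n+2`, which
are joined to all the vertices -/
def pts (n : ℕ) (a : ℕ → ℕ → Bool) : List (ℕ × ℕ) :=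
  (List.range (n + 3)).flatMap fun i => ((List.range (n + 3)).filter fun j =>
    decide (i < j) && (decide (n ≤ j) || a i j)).map fun j => (i, j)

/-- the edges `p`, `q` have a common end below `n` -/
def share (n : ℕ) (p q : ℕ × ℕ) : Bool :=
  (decide (p.1 < n) && (p.1 == q.1 || p.1 == q.2)) ||
    (decide (p.2 < n) && (p.2 == q.1 || p.2 == q.2))

/-- the codes of the vertices: `(p, p)` for a point `p`, `(p, (v, v))` for the flag of `p` and the
line of `v`, `(p, q)` for the flag of `p` and the line `{p, q}` -/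
def vs (n : ℕ) (a : ℕ → ℕ → Bool) : List Code :=
  (pts n a).flatMap fun p => (p, p) ::
    ((([p.1, p.2].filter fun v => decide (v < n)).map fun v => (p, (v, v))) ++
      ((pts n a).filter fun q => !(q == p) && !share n p q).map fun q => (p, q))

/-- adjacency of codes -/
def adjc (x y : Code) : Bool :=
  (x.1 == y.1 && !(x.2 == y.2) && (x.2 == x.1 || y.2 == x.1)) ||
    (!(x.1 == y.1) && ((x.2 == y.1 && y.2 == x.1) || (x.2 == y.2 && x.2.1 == x.2.2)))

/-- the graph with the three additional vertices -/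
def plus (n : ℕ) (a : ℕ → ℕ → Bool) : SimpleGraph ℕ where
  Adj i j := (i < j ∧ j < n + 3 ∧ (n ≤ j ∨ a i j = true)) ∨
    (j < i ∧ i < n + 3 ∧ (n ≤ i ∨ a j i = true))
  symm := ⟨fun i j h => h.symm⟩
  loopless := ⟨fun i h => by omega⟩

variable {n : ℕ} {a : ℕ → ℕ → Bool}

theorem mem_pts {p : ℕ × ℕ} : p ∈ pts n a ↔ p.1 < p.2 ∧ p.2 < n + 3 ∧ (n ≤ p.2 ∨ a p.1 p.2 = true) := by
  obtain ⟨i, j⟩ := p
  simp only [pts, List.mem_flatMap, List.mem_range, List.mem_map, List.mem_filter,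
    Bool.and_eq_true, Bool.or_eq_true, decide_eq_true_eq, Prod.mk.injEq]
  constructor
  · rintro ⟨i', h1, j', ⟨h2, h3, h4⟩, rfl, rfl⟩
    exact ⟨h3, h2, h4⟩
  · rintro ⟨h1, h2, h3⟩
    exact ⟨i, by omega, j, ⟨h2, h1, h3⟩, rfl, rfl⟩

theorem mem_pts_iff {p : ℕ × ℕ} : p ∈ pts n a ↔ p.1 < p.2 ∧ s(p.1, p.2) ∈ (plus n a).edgeSet := by
  rw [mem_pts, mem_edgeSet]
  simp only [plus]
  constructor
  · rintro ⟨h1, h2, h3⟩
    exact ⟨h1, Or.inl ⟨h1, h2, h3⟩⟩
  · rintro ⟨h1, h2 | ⟨h2, _⟩⟩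
    · exact h2
    · omega

theorem mem_vs {x : Code} : x ∈ vs n a ↔ x.1 ∈ pts n a ∧ (x.2 = x.1 ∨
    (∃ v, v < n ∧ (v = x.1.1 ∨ v = x.1.2) ∧ x.2 = (v, v)) ∨
    (x.2 ∈ pts n a ∧ x.2 ≠ x.1 ∧ share n x.1 x.2 = false)) := by
  obtain ⟨p, q⟩ := x
  simp only [vs, List.mem_flatMap, List.mem_cons, List.mem_append, List.mem_map, List.mem_filter,
    Prod.mk.injEq, decide_eq_true_eq, Bool.and_eq_true, Bool.not_eq_true', beq_eq_false_iff_ne,
    List.not_mem_nil, or_false]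
  constructor
  · rintro ⟨p', h1, ⟨rfl, rfl⟩ | ⟨v, ⟨h2, h3⟩, rfl, rfl⟩ | ⟨q', ⟨h2, h3, h4⟩, rfl, rfl⟩⟩
    · exact ⟨h1, Or.inl rfl⟩
    · exact ⟨h1, Or.inr (Or.inl ⟨v, h3, h2, rfl⟩)⟩
    · exact ⟨h1, Or.inr (Or.inr ⟨h2, h3, h4⟩)⟩
  · rintro ⟨h1, rfl | ⟨v, h3, h2, rfl⟩ | ⟨h2, h3, h4⟩⟩
    · exact ⟨_, h1, Or.inl ⟨rfl, rfl⟩⟩
    · exact ⟨p, h1, Or.inr (Or.inl ⟨v, ⟨h2, h3⟩, rfl, rfl⟩)⟩
    · exact ⟨p, h1, Or.inr (Or.inr ⟨q, ⟨h2, h3, h4⟩, rfl, rfl⟩)⟩

theorem nodup_pts : (pts n a).Nodup := by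
  rw [pts, List.nodup_flatMap]
  constructor
  · intro i _
    refine List.Nodup.map (fun x y h => ?_) (List.nodup_range.filter _)
    simpa using h
  · refine List.Pairwise.imp_of_mem ?_ List.nodup_range
    intro i j _ _ hij
    rw [Function.onFun, List.disjoint_left]
    rintro ⟨x, y⟩ hx hy
    simp only [List.mem_map, Prod.mk.injEq] at hx hy
    obtain ⟨_, _, h1, _⟩ := hx
    obtain ⟨_, _, h2, _⟩ := hy
    exact hij (h1.trans h2.symm)

theorem nodup_vs : (vs n a).Nodup := by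
  rw [vs, List.nodup_flatMap]
  constructor
  · intro p hp
    obtain ⟨h1, h2, h3⟩ := mem_pts.1 hp
    rw [List.nodup_cons, List.nodup_append]
    refine ⟨?_, ?_, ?_, ?_⟩
    · simp only [List.mem_append, List.mem_map, List.mem_filter, Prod.mk.injEq, true_and,
        Bool.and_eq_true, Bool.not_eq_true', beq_eq_false_iff_ne]
      rintro (⟨v, _, h⟩ | ⟨q, ⟨_, h, _⟩, h'⟩)
      · rw [← h] at h1
        simp at h1
      · exact h h'
    · refine List.Nodup.map (fun x y h => ?_) (List.Nodup.filter _ ?_)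
      · simpa using h
      · simp only [List.nodup_cons, List.mem_cons, List.not_mem_nil, or_false, not_false_eq_true,
          List.nodup_nil, and_self, and_true]
        omega
    · refine List.Nodup.map (fun x y h => ?_) (nodup_pts.filter _)
      simpa using h
    · intro x hx y hy hxy
      subst hxy
      simp only [List.mem_map, List.mem_filter] at hx hy
      obtain ⟨v, _, rfl⟩ := hx
      obtain ⟨q, ⟨hq, _⟩, h⟩ := hy
      simp only [Prod.mk.injEq, true_and] at h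
      subst h
      have := (mem_pts.1 hq).1
      simp at this
  · refine List.Pairwise.imp_of_mem ?_ nodup_pts
    intro p q _ _ hpq
    rw [Function.onFun, List.disjoint_left]
    rintro ⟨x, y⟩ hx hy
    simp only [List.mem_cons, List.mem_append, List.mem_map, Prod.mk.injEq] at hx hy
    apply hpq
    have e1 : x = p := by
      rcases hx with ⟨h, _⟩ | ⟨_, _, h, _⟩ | ⟨_, _, h, _⟩
      · exact h
      · exact h.symm
      · exact h.symm
    have e2 : x = q := by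
      rcases hy with ⟨h, _⟩ | ⟨_, _, h, _⟩ | ⟨_, _, h, _⟩
      · exact h
      · exact h.symm
      · exact h.symm
    exact e1.symm.trans e2

/-- the line of a code -/
def kl (x : Code) : Option (Line ℕ) :=
  if x.2 = x.1 then none else if x.2.1 = x.2.2 then some (Sum.inl x.2.1)
    else some (Sum.inr s(s(x.1.1, x.1.2), s(x.2.1, x.2.2)))

/-- the vertex with a given code -/
def kap (x : Code) : Sym2 ℕ × Option (Line ℕ) := (s(x.1.1, x.1.2), kl x)

theorem sorted_inj {p q : ℕ × ℕ} (hp : p.1 < p.2) (hq : q.1 < q.2) (h : s(p.1, p.2) = s(q.1, q.2)) :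
    p = q := by
  rw [Sym2.eq_iff] at h
  rcases h with ⟨h1, h2⟩ | ⟨h1, h2⟩
  · exact Prod.ext h1 h2
  · omega

theorem share_iff {p q : ℕ × ℕ} : share n p q = true ↔
    Share (· < n) s(p.1, p.2) s(q.1, q.2) := by
  simp only [share, Share, Bool.or_eq_true, Bool.and_eq_true, decide_eq_true_eq, beq_iff_eq,
    Sym2.mem_iff]
  constructor
  · rintro (⟨h1, h2⟩ | ⟨h1, h2⟩)
    · exact ⟨p.1, h1, Or.inl rfl, h2⟩
    · exact ⟨p.2, h1, Or.inr rfl, h2⟩
  · rintro ⟨u, h1, rfl | rfl, h3⟩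
    · exact Or.inl ⟨h1, h3⟩
    · exact Or.inr ⟨h1, h3⟩

theorem kl_hub (p : ℕ × ℕ) : kl (p, p) = none := by simp [kl]

theorem kl_big {p : ℕ × ℕ} (hp : p.1 < p.2) (v : ℕ) : kl (p, (v, v)) = some (Sum.inl v) := by
  have : (v, v) ≠ p := by rintro rfl; simp at hp
  simp [kl, this]

theorem kl_two {p q : ℕ × ℕ} (hq : q.1 < q.2) (hpq : q ≠ p) :
    kl (p, q) = some (Sum.inr s(s(p.1, p.2), s(q.1, q.2))) := by
  simp [kl, hpq, hq.ne]

theorem kap_mem {x : Code} (hx : x ∈ vs n a) : kap x ∈ SS (plus n a) (· < n) := by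
  obtain ⟨p, q⟩ := x
  obtain ⟨h0, h⟩ := mem_vs.1 hx
  simp only at h0 h
  have h1 := (mem_pts.1 h0).1
  refine ⟨(mem_pts_iff.1 h0).2, ?_⟩
  rcases h with rfl | ⟨v, h3, h2, rfl⟩ | ⟨h2, h3, h4⟩
  · exact Or.inl (kl_hub _)
  · exact Or.inr (Or.inl ⟨v, h3, by simpa [kap, Sym2.mem_iff] using h2, kl_big h1 v⟩)
  · refine Or.inr (Or.inr ⟨s(q.1, q.2), (mem_pts_iff.1 h2).2, ?_, ?_, ?_⟩)
    · intro h
      exact h3 (sorted_inj (mem_pts.1 h2).1 h1 h)
    · intro h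
      have := share_iff.2 h
      rw [h4] at this
      simp at this
    · exact kl_two (mem_pts.1 h2).1 h3

theorem kap_inj {x y : Code} (hx : x ∈ vs n a) (hy : y ∈ vs n a) (h : kap x = kap y) : x = y := by
  obtain ⟨p, q⟩ := x
  obtain ⟨p', q'⟩ := y
  obtain ⟨h0, hx'⟩ := mem_vs.1 hx
  obtain ⟨h0', hy'⟩ := mem_vs.1 hy
  simp only at h0 h0' hx' hy'
  have h1 := (mem_pts.1 h0).1
  have h1' := (mem_pts.1 h0').1
  have e1 : s(p.1, p.2) = s(p'.1, p'.2) := congrArg Prod.fst h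
  have e1' := sorted_inj h1 h1' e1
  subst e1'
  have e2 : kl (p, q) = kl (p, q') := congrArg Prod.snd h
  congr 1
  rcases hx' with rfl | ⟨v, h3, h2, rfl⟩ | ⟨h2, h3, h4⟩
  · rcases hy' with rfl | ⟨v', h3', h2', rfl⟩ | ⟨h2', h3', h4'⟩
    · rfl
    · rw [kl_hub, kl_big h1] at e2; simp at e2
    · rw [kl_hub, kl_two (mem_pts.1 h2').1 h3'] at e2; simp at e2
  · rcases hy' with rfl | ⟨v', h3', h2', rfl⟩ | ⟨h2', h3', h4'⟩
    · rw [kl_hub, kl_big h1] at e2; simp at e2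
    · rw [kl_big h1, kl_big h1] at e2
      have : v = v' := by simpa using e2
      rw [this]
    · rw [kl_big h1, kl_two (mem_pts.1 h2').1 h3'] at e2; simp at e2
  · rcases hy' with rfl | ⟨v', h3', h2', rfl⟩ | ⟨h2', h3', h4'⟩
    · rw [kl_hub, kl_two (mem_pts.1 h2).1 h3] at e2; simp at e2
    · rw [kl_big h1, kl_two (mem_pts.1 h2).1 h3] at e2; simp at e2
    · rw [kl_two (mem_pts.1 h2').1 h3', kl_two (mem_pts.1 h2).1 h3] at e2
      have e3 : s(s(p.1, p.2), s(q.1, q.2)) = s(s(p.1, p.2), s(q'.1, q'.2)) := by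
        simpa only [Option.some.injEq, Sum.inr.injEq] using e2
      rw [Sym2.congr_right] at e3
      exact sorted_inj (mem_pts.1 h2).1 (mem_pts.1 h2').1 e3

theorem exists_pts {p : Sym2 ℕ} (hp : p ∈ (plus n a).edgeSet) :
    ∃ q ∈ pts n a, s(q.1, q.2) = p := by
  induction p with | _ i j
  rcases lt_trichotomy i j with h | h | h
  · exact ⟨(i, j), mem_pts_iff.2 ⟨h, hp⟩, rfl⟩
  · subst h
    exact absurd hp (by simp)
  · exact ⟨(j, i), mem_pts_iff.2 ⟨h, by rw [Sym2.eq_swap]; exact hp⟩, Sym2.eq_swap⟩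

theorem kap_surj {z : Sym2 ℕ × Option (Line ℕ)} (hz : z ∈ SS (plus n a) (· < n)) :
    ∃ x ∈ vs n a, kap x = z := by
  obtain ⟨P, l⟩ := z
  obtain ⟨h0, h⟩ := hz
  simp only at h0 h
  obtain ⟨p, hp, rfl⟩ := exists_pts h0
  have h1 := (mem_pts.1 hp).1
  rcases h with rfl | ⟨v, h3, h2, rfl⟩ | ⟨Q, h2, h3, h4, rfl⟩
  · exact ⟨(p, p), mem_vs.2 ⟨hp, Or.inl rfl⟩, by simp [kap, kl_hub]⟩
  · refine ⟨(p, (v, v)), mem_vs.2 ⟨hp, Or.inr (Or.inl ⟨v, h3, ?_, rfl⟩)⟩, by simp [kap, kl_big h1]⟩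
    simpa [Sym2.mem_iff] using h2
  · obtain ⟨q, hq, rfl⟩ := exists_pts h2
    have hne : q ≠ p := fun h => h3 (by rw [h])
    refine ⟨(p, q), mem_vs.2 ⟨hp, Or.inr (Or.inr ⟨hq, hne, ?_⟩)⟩, ?_⟩
    · by_contra hs
      exact h4 (share_iff.1 (by simpa using hs))
    · simp [kap, kl_two (mem_pts.1 hq).1 hne]

theorem adjc_iff {x y : Code} (hx : x ∈ vs n a) (hy : y ∈ vs n a) : adjc x y = true ↔
    ((s(x.1.1, x.1.2) = s(y.1.1, y.1.2) ∧ ((kl x = none ∧ kl y ≠ none) ∨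
      (kl x ≠ none ∧ kl y = none))) ∨
    (s(x.1.1, x.1.2) ≠ s(y.1.1, y.1.2) ∧ kl x = kl y ∧ kl x ≠ none)) := by
  obtain ⟨p, q⟩ := x
  obtain ⟨p', q'⟩ := y
  obtain ⟨h0, hx'⟩ := mem_vs.1 hx
  obtain ⟨h0', hy'⟩ := mem_vs.1 hy
  simp only at h0 h0' hx' hy'
  have h1 := (mem_pts.1 h0).1
  have h1' := (mem_pts.1 h0').1
  have e0 : s(p.1, p.2) = s(p'.1, p'.2) ↔ p = p' :=
    ⟨sorted_inj h1 h1', fun h => by rw [h]⟩
  have d1 : ∀ v : ℕ, (v, v) ≠ p := by rintro v rfl; simp at h1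
  have d2 : ∀ v : ℕ, (v, v) ≠ p' := by rintro v rfl; simp at h1'
  simp only [adjc, Bool.or_eq_true, Bool.and_eq_true, Bool.not_eq_true', beq_eq_false_iff_ne,
    beq_iff_eq, e0, ne_eq]
  have n1 := h1.ne
  have n1' := h1'.ne
  rcases hx' with rfl | ⟨v, h3, h2, rfl⟩ | ⟨h2, h3, h4⟩
  · rcases hy' with rfl | ⟨v', h3', h2', rfl⟩ | ⟨h2', h3', h4'⟩
    · rw [kl_hub, kl_hub]
      by_cases e : q = q'
      · subst e; simp
      · simp [e]
    · rw [kl_hub, kl_big h1']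
      by_cases e : q = p'
      · subst e; simp [d1]; exact fun h => d1 v' h.symm
      · simp [e]; exact fun h => absurd h.symm (d1 v')
    · rw [kl_hub, kl_two (mem_pts.1 h2').1 h3']
      by_cases e : q = p'
      · subst e; simp [h3']; exact fun h => h3' h.symm
      · simp [e, n1]
  · rcases hy' with rfl | ⟨v', h3', h2', rfl⟩ | ⟨h2', h3', h4'⟩
    · rw [kl_hub, kl_big h1]
      by_cases e : p = q'
      · subst e; simp [d1]
      · simp [e, d2]
    · rw [kl_big h1, kl_big h1']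
      by_cases e : p = p'
      · subst e; simp [d1]
      · simp [e, d2]
    · rw [kl_big h1, kl_two (mem_pts.1 h2').1 h3']
      have n2 := (mem_pts.1 h2').1.ne
      have d3 : (v, v) ≠ q' := by rintro rfl; simp at n2
      by_cases e : p = p'
      · subst e; simp [d1, d3, h3']
      · simp [e, d2, d3]
  · have h2s := (mem_pts.1 h2).1
    have n2 := h2s.ne
    have d3 : ∀ v : ℕ, (v, v) ≠ q := by rintro v rfl; simp at h2s
    have d3' : ∀ v : ℕ, q ≠ (v, v) := fun v h => d3 v h.symm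
    rcases hy' with rfl | ⟨v', h3', h2', rfl⟩ | ⟨h2', h3', h4'⟩
    · rw [kl_hub, kl_two (mem_pts.1 h2).1 h3]
      by_cases e : p = q'
      · subst e; simp [h3]
      · simp [e, n2]; exact fun _ h => e h.symm
    · rw [kl_big h1', kl_two (mem_pts.1 h2).1 h3]
      by_cases e : p = p'
      · subst e; simp [h3, d1, d3']
      · simp [e, n2, d1]
    · rw [kl_two (mem_pts.1 h2).1 h3, kl_two (mem_pts.1 h2').1 h3']
      have h2s' := (mem_pts.1 h2').1
      have e1 : s(p.1, p.2) = s(q'.1, q'.2) ↔ p = q' :=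
        ⟨sorted_inj h1 h2s', fun h => by rw [h]⟩
      have e2 : s(q.1, q.2) = s(p'.1, p'.2) ↔ q = p' :=
        ⟨sorted_inj h2s h1', fun h => by rw [h]⟩
      have e3 : s(q.1, q.2) = s(q'.1, q'.2) ↔ q = q' :=
        ⟨sorted_inj h2s h2s', fun h => by rw [h]⟩
      have e4 : (s(s(p.1, p.2), s(q.1, q.2)) = s(s(p'.1, p'.2), s(q'.1, q'.2))) ↔
          ((p = p' ∧ q = q') ∨ (p = q' ∧ q = p')) := by
        rw [Sym2.eq_iff (x := s(p.1, p.2)), e0, e1, e2, e3]
      simp only [Option.some.injEq, Sum.inr.injEq, e4, reduceCtorEq, not_false_eq_true, and_true,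
        and_false, or_false, false_or]
      constructor
      · rintro (⟨⟨rfl, h6⟩, h7 | h7⟩ | ⟨h5, ⟨h6, h7⟩ | ⟨h6, h7⟩⟩)
        · exact absurd h7 h3
        · exact absurd h7 h3'
        · exact ⟨h5, Or.inr ⟨h7.symm, h6⟩⟩
        · exact absurd h7 n2
      · rintro ⟨h5, ⟨h6, h7⟩ | ⟨h6, h7⟩⟩
        · exact absurd h6 h5
        · exact Or.inr ⟨h5, Or.inl ⟨h7, h6.symm⟩⟩

end Pool.Agent.LibGeo
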