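import Pool.Agent.LibGeo.TestPT

/-!
Isomorphism of geodetic graphs is complete for graph isomorphism.
-/

set_option autoImplicit false

namespace Pool.Agent.LibGeo

open SimpleGraph Pool.Agent.LibComplexity Function Enc

/-- Isomorphism of graphs in the class `𝒞`, as a language: the words that encode a pair of
isomorphic graphs of the class. -/
def isoLang (𝒞 : ∀ n : ℕ, SimpleGraph (Fin n) → Prop) : Set (List Bool) :=
  {w | ∃ (n m : ℕ) (G : SimpleGraph (Fin n)) (H : SimpleGraph (Fin m)),
    w = encodePair G H ∧ 𝒞 n G ∧ 𝒞 m H ∧ Nonempty (G ≃g H)}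

theorem encodePair_ne_nil {n m : ℕ} (G : SimpleGraph (Fin n)) (H : SimpleGraph (Fin m)) :
    encodePair G H ≠ [] := by
  intro h
  have := length_encodePair G H
  rw [h, List.length_nil] at this
  omega

/-- the reduction of graph isomorphism to isomorphism in a class of graphs that contains the
2-connected geodetic graphs of diameter at most five -/
theorem polyRed_to {𝒞 : ∀ n : ℕ, SimpleGraph (Fin n) → Prop}
    (h𝒞 : ∀ n G, Geodetic G ∧ TwoConnected G ∧ DiamLE G 5 → 𝒞 n G) : PolyRed GI (isoLang 𝒞) := by
  refine ⟨fun w => if wf w = true then red w else [], ?_, ?_⟩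
  · rw [inFP_iff]
    exact PTf.ite ptf_wf ptf_red (PTf.const [])
  · intro w
    beta_reduce
    by_cases hw : wf w = true
    · rw [if_pos hw]
      obtain ⟨n, m, G, H, rfl⟩ := (wf_iff w).1 hw
      obtain ⟨n', m', G', H', h1, h2, h3, h4⟩ := red_spec G H
      rw [mem_GI, h1]
      constructor
      · intro h
        exact ⟨n', m', G', H', rfl, h𝒞 _ _ h2, h𝒞 _ _ h3, h4.2 h⟩
      · rintro ⟨n2, m2, G2, H2, h5, _, _, h6⟩
        exact h4.1 ((encodePair_inj h5).2 h6)
    · rw [if_neg hw]
      constructor
      · rintro ⟨n, m, G, H, h1, h2⟩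
        exact absurd ((wf_iff w).2 ⟨n, m, G, H, h1⟩) hw
      · rintro ⟨n, m, G, H, h1, _⟩
        exact absurd h1.symm (encodePair_ne_nil G H)

/-- both graphs are geodetic -/
def bothGeo (w : List Bool) : Bool :=
  geoB (header w).1 (look (header w).2.2 0 (header w).1) &&
    geoB (header w).2.1 (look (header w).2.2 ((header w).1 * (header w).1) (header w).2.1)

theorem bothGeo_iff {n m : ℕ} (G : SimpleGraph (Fin n)) (H : SimpleGraph (Fin m)) :
    bothGeo (encodePair G H) = true ↔ Geodetic G ∧ Geodetic H := by
  unfold bothGeo
  rw [header_encodePair, Bool.and_eq_true]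
  have h1 : Agree (look (matrixBits G ++ matrixBits H) 0 n) G := agree_look G [] (matrixBits H)
  have h2 := agree_look H (matrixBits G) []
  rw [length_matrixBits, List.append_nil] at h2
  rw [geoB_iff h1, geoB_iff h2]

theorem ptf_bothGeo {𝒜 : Set Orc} : PTf 𝒜 (fun _ (w : List Bool) => bothGeo w) := by
  unfold bothGeo
  have h0 : PTf 𝒜 (fun _ (w : List Bool) => header w) := ptf_header
  have h3 : PTf 𝒜 (fun _ (w : List Bool) =>
      geoB (header w).1 (look (header w).2.2 0 (header w).1)) := by
    have h : PTf 𝒜 (fun _ (w : List Bool) => ((header w).2.2, 0, (header w).1)) := by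
      with_reducible apply PTf.pair
      with_reducible apply PTf.snd
      with_reducible apply PTf.snd
      assumption
      with_reducible apply PTf.pair
      with_reducible apply PTf.const
      with_reducible apply PTf.fst
      assumption
    exact (ptf_geoB.comp h).congr fun _ _ _ => rfl
  have h4 : PTf 𝒜 (fun _ (w : List Bool) =>
      geoB (header w).2.1 (look (header w).2.2 ((header w).1 * (header w).1) (header w).2.1)) := by
    have h : PTf 𝒜 (fun _ (w : List Bool) => ((header w).2.2, (header w).1 * (header w).1,
      (header w).2.1)) := by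
        with_reducible apply PTf.pair
        with_reducible apply PTf.snd
        with_reducible apply PTf.snd
        assumption
        with_reducible apply PTf.pair
        with_reducible apply PTf.mul
        with_reducible apply PTf.fst
        assumption
        with_reducible apply PTf.fst
        assumption
        with_reducible apply PTf.fst
        with_reducible apply PTf.snd
        assumption
    exact (ptf_geoB.comp h).congr fun _ _ _ => rfl
  with_reducible apply PTf.band
  assumption
  assumption

theorem polyRed_from : PolyRed (isoLang fun _ G => Geodetic G) GI := by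
  refine ⟨fun w => if (wf w && bothGeo w) = true then w else [], ?_, ?_⟩
  · rw [inFP_iff]
    exact PTf.ite (ptf_wf.band ptf_bothGeo) PTf.id (PTf.const [])
  · intro w
    beta_reduce
    by_cases hw : (wf w && bothGeo w) = true
    · rw [if_pos hw]
      rw [Bool.and_eq_true] at hw
      obtain ⟨n, m, G, H, rfl⟩ := (wf_iff w).1 hw.1
      have h2 := (bothGeo_iff G H).1 hw.2
      constructor
      · rintro ⟨n2, m2, G2, H2, h5, _, _, h6⟩
        exact ⟨n2, m2, G2, H2, h5, h6⟩
      · intro h
        exact ⟨n, m, G, H, rfl, h2.1, h2.2, mem_GI.1 h⟩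
    · rw [if_neg hw]
      constructor
      · rintro ⟨n, m, G, H, h1, h2, h3, h4⟩
        refine absurd ?_ hw
        rw [Bool.and_eq_true]
        refine ⟨(wf_iff w).2 ⟨n, m, G, H, h1⟩, ?_⟩
        rw [h1]
        exact (bothGeo_iff G H).2 ⟨h2, h3⟩
      · rintro ⟨n, m, G, H, h1, _⟩
        exact absurd h1.symm (encodePair_ne_nil G H)

theorem isoInPolyTime_geodetic_iff :
    (IsoInPolyTime fun _ G => Geodetic G) ↔ InP ∅ GI := by
  rw [← isoInPolyTime_all_iff]
  constructor
  · intro h
    exact isoInPolyTime_of_block (h.mono fun _ _ hG => hG.1)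
  · intro h
    exact h.mono fun _ _ _ => trivial

theorem isoInPolyTime_block_iff :
    (IsoInPolyTime fun _ G => Geodetic G ∧ TwoConnected G ∧ DiamLE G 5) ↔ InP ∅ GI := by
  rw [← isoInPolyTime_all_iff]
  constructor
  · intro h
    exact isoInPolyTime_of_block h
  · intro h
    exact h.mono fun _ _ _ => trivial

end Pool.Agent.LibGeo
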