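import Pool.Agent.LibGeo.LinSp

/-!
The graph of a nondegenerate linear space is 2-connected.
-/

set_option autoImplicit false

namespace Pool.Agent.LibGeo

open SimpleGraph

/-- `u` and `v` are joined in `G - x` -/
def RR {V : Type} (G : SimpleGraph V) (x u v : V) : Prop :=
  ∃ (hu : u ∈ ({x}ᶜ : Set V)) (hv : v ∈ ({x}ᶜ : Set V)), (G.induce {x}ᶜ).Reachable ⟨u, hu⟩ ⟨v, hv⟩

section
variable {V : Type} {G : SimpleGraph V} {x u v w : V}

theorem RR.trans (h : RR G x u v) (h' : RR G x v w) : RR G x u w := by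
  obtain ⟨h1, h2, h3⟩ := h
  obtain ⟨h4, h5, h6⟩ := h'
  exact ⟨h1, h5, h3.trans h6⟩

theorem RR.symm (h : RR G x u v) : RR G x v u := by
  obtain ⟨h1, h2, h3⟩ := h
  exact ⟨h2, h1, h3.symm⟩

theorem RR.refl (h : u ≠ x) : RR G x u u := ⟨h, h, Reachable.refl _⟩

theorem RR.adj (h : u ≠ x) (h' : v ≠ x) (ha : G.Adj u v) : RR G x u v :=
  ⟨h, h', Adj.reachable (by simpa using ha)⟩

end

variable {W A B : Type}

/-- Every line has at least two points, and no line contains all the points. -/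
structure Nondeg (pt : W → A) (ln : W → Option B) : Prop where
  two : ∀ f, ln f ≠ none → ∃ g, pt g ≠ pt f ∧ ln g = ln f
  off : ∀ l : Option B, l ≠ none → ∃ c, ln c = none ∧ ¬ On pt ln (pt c) l
  three : ∃ a b c : W, a ≠ b ∧ a ≠ c ∧ b ≠ c

variable {pt : W → A} {ln : W → Option B}

theorem LinStr.rr_join (h : LinStr pt ln) {x c c' : W} (hc : ln c = none) (hc' : ln c' = none)
    (hcx : c ≠ x) (hcx' : c' ≠ x) (hx : ∀ f g, pt f = pt c → pt g = pt c' → ln f = ln g →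
      ln f ≠ none → f ≠ x ∧ g ≠ x) : RR (gr pt ln) x c c' := by
  by_cases hp : pt c = pt c'
  · have : c = c' := h.inj c c' hp (hc.trans hc'.symm)
    subst this
    exact RR.refl hcx
  · obtain ⟨f, g, hf, hg, hfg, hfn⟩ := h.join c c' hp
    obtain ⟨h1, h2⟩ := hx f g hf hg hfg hfn
    have e1 : RR (gr pt ln) x c f := RR.adj hcx h1 (Or.inl ⟨hf.symm, Or.inl ⟨hc, hfn⟩⟩)
    have e2 : RR (gr pt ln) x f g := RR.adj h1 h2 (Or.inr ⟨by rw [hf, hg]; exact hp, hfg, hfn⟩)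
    have e3 : RR (gr pt ln) x c' g :=
      RR.adj hcx' h2 (Or.inl ⟨hg.symm, Or.inl ⟨hc', hfg ▸ hfn⟩⟩)
    exact (e1.trans e2).trans e3.symm

theorem LinStr.rr_hub (h : LinStr pt ln) (hn : Nondeg pt ln) {x c c' : W} (hc : ln c = none)
    (hc' : ln c' = none) (hcx : c ≠ x) (hcx' : c' ≠ x) : RR (gr pt ln) x c c' := by
  by_cases hx : ln x = none
  · refine h.rr_join hc hc' hcx hcx' fun f g hf hg hfg hfn => ⟨?_, ?_⟩
    · rintro rfl; exact hfn hx
    · rintro rfl; exact hfn (hfg.trans hx)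
  · obtain ⟨r, hr1, hr2⟩ := hn.off (ln x) hx
    have hrx : r ≠ x := by rintro rfl; exact hx hr1
    have key : ∀ d : W, ln d = none → d ≠ x → RR (gr pt ln) x d r := by
      intro d hd hdx
      refine h.rr_join hd hr1 hdx hrx fun f g hf hg hfg hfn => ⟨?_, ?_⟩
      · rintro rfl; exact hr2 ⟨g, hg, hfg.symm⟩
      · rintro rfl; exact hr2 ⟨g, hg, rfl⟩
    exact (key c hc hcx).trans (key c' hc' hcx').symm

theorem LinStr.rr_to_hub (h : LinStr pt ln) (hn : Nondeg pt ln) {x u : W} (hu : u ≠ x) :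
    ∃ c, ln c = none ∧ c ≠ x ∧ RR (gr pt ln) x u c := by
  by_cases h0 : ln u = none
  · exact ⟨u, h0, hu, RR.refl hu⟩
  · obtain ⟨c, hc1, hc2⟩ := h.hub u
    by_cases hcx : c = x
    · subst hcx
      obtain ⟨g, hg1, hg2⟩ := hn.two u h0
      obtain ⟨d, hd1, hd2⟩ := h.hub g
      have hgn : ln g ≠ none := hg2 ▸ h0
      have hgx : g ≠ c := by rintro rfl; exact hgn hc2
      have hdx : d ≠ c := by
        rintro rfl
        exact hg1 (hd1.symm.trans hc1)
      refine ⟨d, hd2, hdx, ?_⟩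
      have e1 : RR (gr pt ln) c u g :=
        RR.adj hu hgx (Or.inr ⟨fun hh => hg1 hh.symm, hg2.symm, h0⟩)
      have e2 : RR (gr pt ln) c g d := RR.adj hgx hdx (Or.inl ⟨hd1.symm, Or.inr ⟨hgn, hd2⟩⟩)
      exact e1.trans e2
    · exact ⟨c, hc2, hcx, RR.adj hu hcx (Or.inl ⟨hc1.symm, Or.inr ⟨h0, hc2⟩⟩)⟩

theorem LinStr.twoConnected [Finite W] (h : LinStr pt ln) (hn : Nondeg pt ln) :
    TwoConnected (gr pt ln) := by
  obtain ⟨a, b, c, hab, hac, hbc⟩ := hn.three
  haveI : Nonempty W := ⟨a⟩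
  refine ⟨?_, h.local.connected, fun x => ?_⟩
  · have : ({a, b, c} : Set W).ncard = 3 := by
      rw [Set.ncard_eq_three]
      exact ⟨a, b, c, hab, hac, hbc, rfl⟩
    rw [← this, ← Set.ncard_univ]
    exact Set.ncard_le_ncard (Set.subset_univ _) Set.finite_univ
  · rw [connected_iff]
    constructor
    · rintro ⟨u, hu⟩ ⟨v, hv⟩
      obtain ⟨d, hd1, hd2, hd3⟩ := h.rr_to_hub hn (x := x) (u := u) hu
      obtain ⟨d', hd1', hd2', hd3'⟩ := h.rr_to_hub hn (x := x) (u := v) hv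
      obtain ⟨_, _, hh⟩ := (hd3.trans (h.rr_hub hn hd1 hd1' hd2 hd2')).trans hd3'.symm
      exact hh
    · by_cases hax : a = x
      · exact ⟨⟨b, fun hh => hab (hax.trans (Eq.symm hh))⟩⟩
      · exact ⟨⟨a, hax⟩⟩

/-! ### Recovering the lines -/

/-- the vertex `w` lies in a triangle -/
def InTri {V : Type} (G : SimpleGraph V) (w : V) : Prop := ∃ a b, G.Adj w a ∧ G.Adj w b ∧ G.Adj a b

theorem InTri.map {V V' : Type} {G : SimpleGraph V} {G' : SimpleGraph V'} (φ : G ≃g G') {w : V}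
    (h : InTri G w) : InTri G' (φ w) := by
  obtain ⟨a, b, h1, h2, h3⟩ := h
  exact ⟨φ a, φ b, φ.map_rel_iff.2 h1, φ.map_rel_iff.2 h2, φ.map_rel_iff.2 h3⟩

/-- a vertex lies in a triangle iff it is a flag of a line with at least three points -/
theorem inTri_iff (w : W) : InTri (gr pt ln) w ↔
    ln w ≠ none ∧ ∃ a b, pt a ≠ pt w ∧ pt b ≠ pt w ∧ pt a ≠ pt b ∧ ln a = ln w ∧ ln b = ln w := by
  constructor
  · rintro ⟨a, b, h1, h2, h3⟩
    rcases h1 with ⟨p1, q1⟩ | ⟨p1, q1, r1⟩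
    · rcases h2 with ⟨p2, q2⟩ | ⟨p2, q2, r2⟩
      · rcases h3 with ⟨p3, q3⟩ | ⟨p3, q3, r3⟩
        · tauto
        · exact absurd (p1.symm.trans p2) p3
      · rcases h3 with ⟨p3, q3⟩ | ⟨p3, q3, r3⟩
        · exact absurd (p1.trans p3) p2
        · rcases q1 with ⟨q1, _⟩ | ⟨_, q1⟩
          · exact absurd q1 r2
          · exact absurd q1 r3
    · rcases h2 with ⟨p2, q2⟩ | ⟨p2, q2, r2⟩
      · rcases h3 with ⟨p3, q3⟩ | ⟨p3, q3, r3⟩
        · exact absurd (p2.trans p3.symm) p1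
        · rcases q2 with ⟨q2, _⟩ | ⟨_, q2⟩
          · exact absurd q2 r1
          · exact absurd (q3.trans q2) r3
      · rcases h3 with ⟨p3, q3⟩ | ⟨p3, q3, r3⟩
        · rcases q3 with ⟨q3, _⟩ | ⟨_, q3⟩
          · exact absurd (q1.trans q3) r1
          · exact absurd (q2.trans q3) r2
        · exact ⟨r1, a, b, fun hh => p1 hh.symm, fun hh => p2 hh.symm, p3, q1.symm, q2.symm⟩
  · rintro ⟨h0, a, b, h1, h2, h3, h4, h5⟩
    exact ⟨a, b, Or.inr ⟨fun hh => h1 hh.symm, h4.symm, h0⟩,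
      Or.inr ⟨fun hh => h2 hh.symm, h5.symm, h0⟩, Or.inr ⟨h3, h4.trans h5.symm, h4 ▸ h0⟩⟩

theorem LinStr.eq_or_adj_iff (h : LinStr pt ln) {x y : W} (hx : ln x ≠ none) (hy : ln y ≠ none) :
    (x = y ∨ (gr pt ln).Adj x y) ↔ ln x = ln y := by
  constructor
  · rintro (rfl | ⟨_, h1⟩ | ⟨_, h1, _⟩)
    · rfl
    · tauto
    · exact h1
  · intro hl
    by_cases hp : pt x = pt y
    · exact Or.inl (h.inj x y hp hl)
    · exact Or.inr (Or.inr ⟨hp, hl, hx⟩)

theorem LinStr.common_iff (h : LinStr pt ln) {x y : W} (hx : ln x ≠ none) (hy : ln y ≠ none)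
    (hxy : ln x ≠ ln y) : (∃ c, (gr pt ln).Adj x c ∧ (gr pt ln).Adj y c) ↔ pt x = pt y := by
  constructor
  · rintro ⟨c, ⟨p1, q1⟩ | ⟨p1, q1, r1⟩, ⟨p2, q2⟩ | ⟨p2, q2, r2⟩⟩
    · exact p1.trans p2.symm
    · rcases q1 with ⟨q1, _⟩ | ⟨_, q1⟩
      · exact absurd q1 hx
      · exact absurd (q2.trans q1) r2
    · rcases q2 with ⟨q2, _⟩ | ⟨_, q2⟩
      · exact absurd q2 hy
      · exact absurd (q1.trans q2) r1
    · exact absurd (q1.trans q2.symm) hxy
  · intro hp
    obtain ⟨c, hc1, hc2⟩ := h.hub x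
    exact ⟨c, Or.inl ⟨hc1.symm, Or.inr ⟨hx, hc2⟩⟩,
      Or.inl ⟨hp.symm.trans hc1.symm, Or.inr ⟨hy, hc2⟩⟩⟩

/-- The space represents the graph `X`: the lines with at least three points are the lines
`β v`, for the vertices `v` of `X`, and two of them meet iff the vertices are adjacent. -/
structure Repr {V : Type} (pt : W → A) (ln : W → Option B) (X : SimpleGraph V) (β : V → B) :
    Prop where
  inj : Function.Injective β
  tri : ∀ w, InTri (gr pt ln) w ↔ ∃ v, ln w = some (β v)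
  ex : ∀ v, ∃ w, ln w = some (β v)
  meet : ∀ u v, u ≠ v → (X.Adj u v ↔ ∃ x y, ln x = some (β u) ∧ ln y = some (β v) ∧ pt x = pt y)

theorem Repr.key {V V' W' A' B' : Type} {X : SimpleGraph V} {β : V → B} {pt' : W' → A'}
    {ln' : W' → Option B'} {Y : SimpleGraph V'} {β' : V' → B'} (h : LinStr pt ln)
    (h' : LinStr pt' ln') (r : Repr pt ln X β) (r' : Repr pt' ln' Y β')
    (φ : gr pt ln ≃g gr pt' ln') : ∃ ψ : V → V', (∀ w v, ln w = some (β v) →
      ln' (φ w) = some (β' (ψ v))) := by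
  have h1 : ∀ v, ∃ v', ∀ w, ln w = some (β v) → ln' (φ w) = some (β' v') := by
    intro v
    obtain ⟨w0, hw0⟩ := r.ex v
    obtain ⟨v', hv'⟩ := (r'.tri (φ w0)).1 (((r.tri w0).2 ⟨v, hw0⟩).map φ)
    refine ⟨v', fun w hw => ?_⟩
    obtain ⟨v2, hv2⟩ := (r'.tri (φ w)).1 (((r.tri w).2 ⟨v, hw⟩).map φ)
    have e1 : w = w0 ∨ (gr pt ln).Adj w w0 :=
      (h.eq_or_adj_iff (by rw [hw]; simp) (by rw [hw0]; simp)).2 (hw.trans hw0.symm)
    have e2 : φ w = φ w0 ∨ (gr pt' ln').Adj (φ w) (φ w0) := by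
      rcases e1 with e1 | e1
      · exact Or.inl (by rw [e1])
      · exact Or.inr (φ.map_rel_iff.2 e1)
    have e3 := (h'.eq_or_adj_iff (by rw [hv2]; simp) (by rw [hv']; simp)).1 e2
    exact e3.trans hv'
  choose ψ hψ using h1
  exact ⟨ψ, fun w v => hψ v w⟩

/-- An isomorphism of the graphs of two spaces gives an isomorphism of the represented graphs. -/
theorem Repr.iso {V V' W' A' B' : Type} {X : SimpleGraph V} {β : V → B} {pt' : W' → A'}
    {ln' : W' → Option B'} {Y : SimpleGraph V'} {β' : V' → B'} (h : LinStr pt ln)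
    (h' : LinStr pt' ln') (r : Repr pt ln X β) (r' : Repr pt' ln' Y β')
    (φ : gr pt ln ≃g gr pt' ln') : Nonempty (X ≃g Y) := by
  obtain ⟨ψ, hψ⟩ := Repr.key h h' r r' φ
  obtain ⟨ψ', hψ'⟩ := Repr.key h' h r' r φ.symm
  have l1 : ∀ v, ψ' (ψ v) = v := by
    intro v
    obtain ⟨w, hw⟩ := r.ex v
    have h1 := hψ' (φ w) (ψ v) (hψ w v hw)
    rw [RelIso.symm_apply_apply, hw] at h1
    exact (r.inj (Option.some_injective _ h1)).symm
  have l2 : ∀ v, ψ (ψ' v) = v := by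
    intro v
    obtain ⟨w, hw⟩ := r'.ex v
    have h1 := hψ (φ.symm w) (ψ' v) (hψ' w v hw)
    rw [RelIso.apply_symm_apply, hw] at h1
    exact (r'.inj (Option.some_injective _ h1)).symm
  have key : ∀ u v, X.Adj u v → Y.Adj (ψ u) (ψ v) := by
    intro u v huv
    have huv' : u ≠ v := huv.ne
    have hne : ψ u ≠ ψ v := fun hh => huv' (by rw [← l1 u, hh, l1])
    obtain ⟨x, y, hx, hy, hxy⟩ := (r.meet u v huv').1 huv
    have hx' := hψ x u hx
    have hy' := hψ y v hy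
    have n1 : ln x ≠ none := by rw [hx]; simp
    have n2 : ln y ≠ none := by rw [hy]; simp
    have n3 : ln x ≠ ln y := by
      rw [hx, hy]
      exact fun hh => huv' (r.inj (Option.some_injective _ hh))
    obtain ⟨c, hc1, hc2⟩ := (h.common_iff n1 n2 n3).2 hxy
    have m1 : ln' (φ x) ≠ none := by rw [hx']; simp
    have m2 : ln' (φ y) ≠ none := by rw [hy']; simp
    have m3 : ln' (φ x) ≠ ln' (φ y) := by
      rw [hx', hy']
      exact fun hh => hne (r'.inj (Option.some_injective _ hh))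
    have hp := (h'.common_iff m1 m2 m3).1 ⟨φ c, φ.map_rel_iff.2 hc1, φ.map_rel_iff.2 hc2⟩
    exact (r'.meet _ _ hne).2 ⟨φ x, φ y, hx', hy', hp⟩
  have key' : ∀ u v, Y.Adj u v → X.Adj (ψ' u) (ψ' v) := by
    intro u v huv
    have huv' : u ≠ v := huv.ne
    have hne : ψ' u ≠ ψ' v := fun hh => huv' (by rw [← l2 u, hh, l2])
    obtain ⟨x, y, hx, hy, hxy⟩ := (r'.meet u v huv').1 huv
    have hx' := hψ' x u hx
    have hy' := hψ' y v hy
    have n1 : ln' x ≠ none := by rw [hx]; simp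
    have n2 : ln' y ≠ none := by rw [hy]; simp
    have n3 : ln' x ≠ ln' y := by
      rw [hx, hy]
      exact fun hh => huv' (r'.inj (Option.some_injective _ hh))
    obtain ⟨c, hc1, hc2⟩ := (h'.common_iff n1 n2 n3).2 hxy
    have m1 : ln (φ.symm x) ≠ none := by rw [hx']; simp
    have m2 : ln (φ.symm y) ≠ none := by rw [hy']; simp
    have m3 : ln (φ.symm x) ≠ ln (φ.symm y) := by
      rw [hx', hy']
      exact fun hh => hne (r.inj (Option.some_injective _ hh))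
    have hp := (h.common_iff m1 m2 m3).1
      ⟨φ.symm c, φ.symm.map_rel_iff.2 hc1, φ.symm.map_rel_iff.2 hc2⟩
    exact (r.meet _ _ hne).2 ⟨φ.symm x, φ.symm y, hx', hy', hp⟩
  exact ⟨{ toFun := ψ, invFun := ψ', left_inv := l1, right_inv := l2,
           map_rel_iff' := by
            intro u v
            constructor
            · intro hh
              have := key' _ _ hh
              simp only [Equiv.coe_fn_mk] at this
              rwa [l1, l1] at this
            · exact key u v }⟩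

end Pool.Agent.LibGeo
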