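import Pool.Agent.LibGeo.Main

/-!
The graph isomorphism problem as a language.
-/

set_option autoImplicit false

namespace Pool.Agent.LibGeo

open SimpleGraph Pool.Agent.LibComplexity Function Enc

/-- The graph isomorphism problem: the words that encode a pair of isomorphic graphs. -/
def GI : Set (List Bool) :=
  {w | ∃ (n m : ℕ) (G : SimpleGraph (Fin n)) (H : SimpleGraph (Fin m)),
    w = encodePair G H ∧ Nonempty (G ≃g H)}

/-- the word starts with two numbers in unary, followed by the rest -/
def wf1 (w : List Bool) : Bool :=
  w == List.replicate (header w).1 true ++ false ::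
    (List.replicate (header w).2.1 true ++ false :: (header w).2.2)

/-- the length is right -/
def wf2 (w : List Bool) : Bool :=
  decide ((header w).2.2.length = (header w).1 * (header w).1 + (header w).2.1 * (header w).2.1)

/-- the matrix is symmetric with zero diagonal -/
def wf3 (v : List Bool) (off n : ℕ) : Bool :=
  (List.range n).all fun i => !look v off n i i &&
    (List.range n).all fun j => look v off n i j == look v off n j i

/-- the word encodes a pair of graphs -/
def wf (w : List Bool) : Bool :=
  wf1 w && wf2 w && wf3 (header w).2.2 0 (header w).1 &&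
    wf3 (header w).2.2 ((header w).1 * (header w).1) (header w).2.1

theorem header_encodePair {n m : ℕ} (G : SimpleGraph (Fin n)) (H : SimpleGraph (Fin m)) :
    header (encodePair G H) = (n, m, matrixBits G ++ matrixBits H) := by
  have e1 : hd (encodePair G H) = n := hd_replicate _ _
  have e2 : (encodePair G H).drop (n + 1) = List.replicate m true ++ false ::
    (matrixBits G ++ matrixBits H) := drop_replicate _ _
  have e3 : hd (List.replicate m true ++ false :: (matrixBits G ++ matrixBits H)) = m :=
    hd_replicate _ _
  have e4 : (List.replicate m true ++ false :: (matrixBits G ++ matrixBits H)).drop (m + 1) =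
    matrixBits G ++ matrixBits H := drop_replicate _ _
  unfold header
  rw [e1, e2, e3, e4]

theorem wf3_of_agree {n : ℕ} {G : SimpleGraph (Fin n)} {v : List Bool} {off : ℕ}
    (h : Agree (look v off n) G) : wf3 v off n = true := by
  simp only [wf3, List.all_eq_true, List.mem_range, Bool.and_eq_true, Bool.not_eq_true',
    beq_iff_eq]
  intro i hi
  constructor
  · by_contra hh
    exact G.loopless.irrefl ⟨i, hi⟩ ((h ⟨i, hi⟩ ⟨i, hi⟩).1 (by simpa using hh))
  · intro j hj
    rw [Bool.eq_iff_iff]
    have h1 := h ⟨i, hi⟩ ⟨j, hj⟩
    have h2 := h ⟨j, hj⟩ ⟨i, hi⟩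
    simp only at h1 h2
    rw [h1, h2, G.adj_comm]

theorem exists_of_wf3 {v : List Bool} {off n : ℕ} (h : wf3 v off n = true)
    (hl : off + n * n ≤ v.length) :
    ∃ G : SimpleGraph (Fin n), matrixBits G = (v.drop off).take (n * n) := by
  simp only [wf3, List.all_eq_true, List.mem_range, Bool.and_eq_true, Bool.not_eq_true',
    beq_iff_eq] at h
  let G : SimpleGraph (Fin n) :=
    { Adj := fun i j => look v off n i j = true
      symm := ⟨fun i j hij => by rw [← (h i i.2).2 j j.2]; exact hij⟩
      loopless := ⟨fun i hi => by rw [(h i i.2).1] at hi; simp at hi⟩ }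
  refine ⟨G, ?_⟩
  apply List.ext_getElem
  · rw [length_matrixBits]
    simp only [List.length_take, List.length_drop]
    omega
  · intro k h1 h2
    rw [length_matrixBits] at h1
    have hn : 0 < n := by
      rcases Nat.eq_zero_or_pos n with h0 | h0
      · subst h0; simp at h1
      · exact h0
    have hi : k / n < n := Nat.div_lt_of_lt_mul h1
    have hj : k % n < n := Nat.mod_lt _ hn
    have hk : k / n * n + k % n = k := Nat.div_add_mod' k n
    have e := matrixBits_getD G ⟨k / n, hi⟩ ⟨k % n, hj⟩
    simp only [hk] at e
    rw [List.getD_eq_getElem (hn := by rw [length_matrixBits]; exact h1)] at e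
    rw [Bool.eq_iff_iff, e]
    show look v off n (k / n) (k % n) = true ↔ _
    unfold look
    rw [hk, List.getD_eq_getElem (hn := by omega)]
    simp

theorem wf_iff (w : List Bool) : wf w = true ↔
    ∃ (n m : ℕ) (G : SimpleGraph (Fin n)) (H : SimpleGraph (Fin m)), w = encodePair G H := by
  constructor
  · intro h
    simp only [wf, Bool.and_eq_true, wf1, wf2, beq_iff_eq, decide_eq_true_eq] at h
    obtain ⟨⟨⟨h1, h2⟩, h3⟩, h4⟩ := h
    obtain ⟨G, hG⟩ := exists_of_wf3 h3 (by omega)
    obtain ⟨H, hH⟩ := exists_of_wf3 h4 (by omega)
    refine ⟨_, _, G, H, ?_⟩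
    conv_lhs => rw [h1]
    unfold encodePair
    rw [hG, hH]
    congr 4
    rw [List.drop_zero, List.take_of_length_le (l := List.drop _ _)]
    · exact (List.take_append_drop _ _).symm
    · simp only [List.length_drop]
      omega
  · rintro ⟨n, m, G, H, rfl⟩
    simp only [wf, Bool.and_eq_true, wf1, wf2, header_encodePair, beq_iff_eq, decide_eq_true_eq]
    refine ⟨⟨⟨rfl, ?_⟩, ?_⟩, ?_⟩
    · rw [List.length_append, length_matrixBits, length_matrixBits]
    · exact wf3_of_agree (agree_look G [] (matrixBits H))
    · have := agree_look H (matrixBits G) []
      rw [length_matrixBits, List.append_nil] at this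
      exact wf3_of_agree this

theorem encodePair_inj {n m n' m' : ℕ} {G : SimpleGraph (Fin n)} {H : SimpleGraph (Fin m)}
    {G' : SimpleGraph (Fin n')} {H' : SimpleGraph (Fin m')}
    (h : encodePair G H = encodePair G' H') :
    Nonempty (G ≃g H) ↔ Nonempty (G' ≃g H') := by
  have h1 := congrArg header h
  rw [header_encodePair, header_encodePair, Prod.mk.injEq, Prod.mk.injEq] at h1
  obtain ⟨h1, h2, h3⟩ := h1
  subst h1 h2
  have h4 := List.append_inj h3 (by rw [length_matrixBits, length_matrixBits])
  have e1 : G = G' := by
    ext i j
    rw [← matrixBits_getD, ← matrixBits_getD, h4.1]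
  have e2 : H = H' := by
    ext i j
    rw [← matrixBits_getD, ← matrixBits_getD, h4.2]
  rw [e1, e2]

theorem mem_GI {n m : ℕ} {G : SimpleGraph (Fin n)} {H : SimpleGraph (Fin m)} :
    encodePair G H ∈ GI ↔ Nonempty (G ≃g H) := by
  constructor
  · rintro ⟨n', m', G', H', h1, h2⟩
    exact (encodePair_inj h1).2 h2
  · intro h
    exact ⟨n, m, G, H, rfl, h⟩

section PT

variable {𝒜 : Set Orc}

theorem ptf_wf1 : PTf 𝒜 (fun _ (w : List Bool) => wf1 w) := by
  unfold wf1
  have h1 : PTf 𝒜 (fun _ (w : List Bool) => header w) := ptf_header
  with_reducible apply PTf.beq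
  with_reducible apply PTf.id
  with_reducible apply PTf.append
  with_reducible apply PTf.replicate
  with_reducible apply PTf.fst
  assumption
  with_reducible apply PTf.const
  with_reducible apply PTf.cons
  with_reducible apply PTf.const
  with_reducible apply PTf.append
  with_reducible apply PTf.replicate
  with_reducible apply PTf.fst
  with_reducible apply PTf.snd
  assumption
  with_reducible apply PTf.const
  with_reducible apply PTf.cons
  with_reducible apply PTf.const
  with_reducible apply PTf.snd
  with_reducible apply PTf.snd
  assumption

theorem ptf_wf2 : PTf 𝒜 (fun _ (w : List Bool) => wf2 w) := by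
  unfold wf2
  have h1 : PTf 𝒜 (fun _ (w : List Bool) => header w) := ptf_header
  with_reducible apply PTf.decide_eq
  with_reducible apply PTf.length
  with_reducible apply PTf.snd
  with_reducible apply PTf.snd
  assumption
  with_reducible apply PTf.add
  with_reducible apply PTf.mul
  with_reducible apply PTf.fst
  assumption
  with_reducible apply PTf.fst
  assumption
  with_reducible apply PTf.mul
  with_reducible apply PTf.fst
  with_reducible apply PTf.snd
  assumption
  with_reducible apply PTf.fst
  with_reducible apply PTf.snd
  assumption

theorem ptf_wf3 : PTf 𝒜 (fun _ (x : List Bool × ℕ × ℕ) => wf3 x.1 x.2.1 x.2.2) := by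
  unfold wf3 look
  with_reducible apply PTf.all
  with_reducible apply PTf.range
  with_reducible apply PTf.snd
  with_reducible apply PTf.snd
  with_reducible apply PTf.id
  with_reducible apply PTf.band
  with_reducible apply PTf.bnot
  with_reducible apply PTf.listGetD
  with_reducible apply PTf.fst
  with_reducible apply PTf.fst
  with_reducible apply PTf.id
  with_reducible apply PTf.add
  with_reducible apply PTf.fst
  with_reducible apply PTf.snd
  with_reducible apply PTf.fst
  with_reducible apply PTf.id
  with_reducible apply PTf.add
  with_reducible apply PTf.mul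
  with_reducible apply PTf.snd
  with_reducible apply PTf.id
  with_reducible apply PTf.snd
  with_reducible apply PTf.snd
  with_reducible apply PTf.fst
  with_reducible apply PTf.id
  with_reducible apply PTf.snd
  with_reducible apply PTf.id
  with_reducible apply PTf.const
  with_reducible apply PTf.all
  with_reducible apply PTf.range
  with_reducible apply PTf.snd
  with_reducible apply PTf.snd
  with_reducible apply PTf.fst
  with_reducible apply PTf.id
  with_reducible apply PTf.beq
  with_reducible apply PTf.listGetD
  with_reducible apply PTf.fst
  with_reducible apply PTf.fst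
  with_reducible apply PTf.fst
  with_reducible apply PTf.id
  with_reducible apply PTf.add
  with_reducible apply PTf.fst
  with_reducible apply PTf.snd
  with_reducible apply PTf.fst
  with_reducible apply PTf.fst
  with_reducible apply PTf.id
  with_reducible apply PTf.add
  with_reducible apply PTf.mul
  with_reducible apply PTf.snd
  with_reducible apply PTf.fst
  with_reducible apply PTf.id
  with_reducible apply PTf.snd
  with_reducible apply PTf.snd
  with_reducible apply PTf.fst
  with_reducible apply PTf.fst
  with_reducible apply PTf.id
  with_reducible apply PTf.snd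
  with_reducible apply PTf.id
  with_reducible apply PTf.const
  with_reducible apply PTf.listGetD
  with_reducible apply PTf.fst
  with_reducible apply PTf.fst
  with_reducible apply PTf.fst
  with_reducible apply PTf.id
  with_reducible apply PTf.add
  with_reducible apply PTf.fst
  with_reducible apply PTf.snd
  with_reducible apply PTf.fst
  with_reducible apply PTf.fst
  with_reducible apply PTf.id
  with_reducible apply PTf.add
  with_reducible apply PTf.mul
  with_reducible apply PTf.snd
  with_reducible apply PTf.id
  with_reducible apply PTf.snd
  with_reducible apply PTf.snd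
  with_reducible apply PTf.fst
  with_reducible apply PTf.fst
  with_reducible apply PTf.id
  with_reducible apply PTf.snd
  with_reducible apply PTf.fst
  with_reducible apply PTf.id
  with_reducible apply PTf.const

theorem ptf_wf : PTf 𝒜 (fun _ (w : List Bool) => wf w) := by
  unfold wf
  have h0 : PTf 𝒜 (fun _ (w : List Bool) => header w) := ptf_header
  have h1 : PTf 𝒜 (fun _ (w : List Bool) => wf1 w) := ptf_wf1
  have h2 : PTf 𝒜 (fun _ (w : List Bool) => wf2 w) := ptf_wf2
  have h3 : PTf 𝒜 (fun _ (w : List Bool) => wf3 (header w).2.2 0 (header w).1) := by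
    have h : PTf 𝒜 (fun _ (w : List Bool) => ((header w).2.2, 0, (header w).1)) := by
      with_reducible apply PTf.pair
      with_reducible apply PTf.snd
      with_reducible apply PTf.snd
      assumption
      with_reducible apply PTf.pair
      with_reducible apply PTf.const
      with_reducible apply PTf.fst
      assumption
    exact (ptf_wf3.comp h).congr fun _ _ _ => rfl
  have h4 : PTf 𝒜 (fun _ (w : List Bool) => wf3 (header w).2.2
      ((header w).1 * (header w).1) (header w).2.1) := by
    have h : PTf 𝒜 (fun _ (w : List Bool) => ((header w).2.2, (header w).1 * (header w).1,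
      (header w).2.1)) := by
        with_reducible apply PTf.pair
        with_reducible apply PTf.snd
        with_reducible apply PTf.snd
        assumption
        with_reducible apply PTf.pair
        with_reducible apply PTf.mul
        with_reducible apply PTf.fst
        assumption
        with_reducible apply PTf.fst
        assumption
        with_reducible apply PTf.fst
        with_reducible apply PTf.snd
        assumption
    exact (ptf_wf3.comp h).congr fun _ _ _ => rfl
  with_reducible apply PTf.band
  with_reducible apply PTf.band
  with_reducible apply PTf.band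
  assumption
  assumption
  assumption
  assumption

end PT

/-- The problem on all pairs of graphs is solvable in polynomial time iff `GI` is in `P`. -/
theorem isoInPolyTime_all_iff : (IsoInPolyTime fun _ _ => True) ↔ InP ∅ GI := by
  constructor
  · rintro ⟨M, p, hM, hp⟩
    rw [inP_iff]
    refine ⟨fun A w => wf w && answer M ((stepC M A)^[p.eval w.length] (initC M w [])).1,
      ptf_wf.band (PTf.answer M (PTf.simC M PTf.id (PTf.const []) (PTf.id.length.poly p)).fst), ?_⟩
    intro w
    show (wf w && answer M ((stepC M ∅)^[p.eval w.length] (initC M w [])).1) = true ↔ w ∈ GI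
    by_cases hw : wf w = true
    · obtain ⟨n, m, G, H, rfl⟩ := (wf_iff w).1 hw
      rw [mem_GI, hw, Bool.true_and]
      obtain ⟨c', b', h5, h6⟩ := hp n m G H trivial trivial (fun k => ([] : List Bool).getD k false)
      have h7 : M.Halts ∅ (encodePair G H) (fun k => ([] : List Bool).getD k false)
          (p.eval (encodePair G H).length) c' b' := by
        obtain ⟨n1, hn1, h8⟩ := h5
        refine ⟨n1, hn1.trans (peval_mono p ?_), h8⟩
        rw [length_encodePair]
        omega
      have h8 := repC_halts h7
      have h9 : answer M ((stepC M ∅)^[p.eval (encodePair G H).length]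
          (initC M (encodePair G H) [])).1 = b' := by
        obtain ⟨n1, hn1, h9, h10⟩ := h7
        rw [← h8.q]
        unfold answer
        rw [h10]
      rw [h9]
      exact h6
    · constructor
      · intro h
        rw [Bool.and_eq_true] at h
        exact absurd h.1 hw
      · rintro ⟨n, m, G, H, h1, h2⟩
        exact absurd ((wf_iff w).2 ⟨n, m, G, H, h1⟩) hw
  · intro h
    obtain ⟨f, hf, hL⟩ := inP_iff.1 h
    obtain ⟨M', p', hM', hp'⟩ := exists_tm_of_dec hf
    refine ⟨M', p'.comp (Polynomial.X ^ 2 + Polynomial.X + 2), hM', ?_⟩
    intro n m G H _ _ β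
    obtain ⟨c, n0, hn0, hc1, hc2⟩ := hp' ∅ rfl (encodePair G H) β
    refine ⟨c, _, ⟨n0, hn0.trans ?_, hc1, hc2⟩, ?_⟩
    · rw [Polynomial.eval_comp]
      apply peval_mono
      rw [length_encodePair]
      simp only [Polynomial.eval_add, Polynomial.eval_pow, Polynomial.eval_X,
        Polynomial.eval_ofNat]
      nlinarith [Nat.zero_le (n * m)]
    · rw [hL, mem_GI]

end Pool.Agent.LibGeo
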