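import Pool.Agent.LibGeo.Basic

/-!
The geodetic graph of a linear space. The vertices are the points and the flags of the space; the
map `pt` gives the point, the map `ln` gives the line of a flag (`none` for points).
-/

set_option autoImplicit false

namespace Pool.Agent.LibGeo

open SimpleGraph

variable {W A B : Type}

/-- `(pt, ln)` describes the points and flags of a linear space. -/
structure LinStr (pt : W → A) (ln : W → Option B) : Prop where
  inj : ∀ w w', pt w = pt w' → ln w = ln w' → w = w'
  hub : ∀ w, ∃ h, pt h = pt w ∧ ln h = none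
  join : ∀ w w', pt w ≠ pt w' → ∃ f g, pt f = pt w ∧ pt g = pt w' ∧ ln f = ln g ∧ ln f ≠ none
  uniq : ∀ f g f' g', pt f = pt f' → pt g = pt g' → pt f ≠ pt g → ln f = ln g → ln f ≠ none →
    ln f' = ln g' → ln f' ≠ none → ln f = ln f'

/-- The graph of points and flags: a point is joined to its flags, two flags are joined if they
belong to the same line. -/
def gr (pt : W → A) (ln : W → Option B) : SimpleGraph W where
  Adj x y := (pt x = pt y ∧ ((ln x = none ∧ ln y ≠ none) ∨ (ln x ≠ none ∧ ln y = none))) ∨
    (pt x ≠ pt y ∧ ln x = ln y ∧ ln x ≠ none)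
  symm := ⟨by
    rintro x y (⟨h1, h2⟩ | ⟨h1, h2, h3⟩)
    · exact Or.inl ⟨h1.symm, by tauto⟩
    · exact Or.inr ⟨fun h => h1 h.symm, h2.symm, h2 ▸ h3⟩⟩
  loopless := ⟨by
    rintro x (⟨_, h2⟩ | ⟨h1, _⟩)
    · tauto
    · exact h1 rfl⟩

/-- The point `a` lies on the line `l`. -/
def On (pt : W → A) (ln : W → Option B) (a : A) (l : Option B) : Prop := ∃ f, pt f = a ∧ ln f = l

section
open Classical in
/-- The distance in the graph of points and flags. -/
noncomputable def dd (pt : W → A) (ln : W → Option B) (u v : W) : ℕ :=
  if pt u = pt v then (if ln u = ln v then 0 else if ln u = none ∨ ln v = none then 1 else 2)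
  else if ln u = none then (if ln v = none then 3 else if On pt ln (pt u) (ln v) then 2 else 4)
  else if ln v = none then (if On pt ln (pt v) (ln u) then 2 else 4)
  else if ln u = ln v then 1
  else if On pt ln (pt v) (ln u) ∨ On pt ln (pt u) (ln v) then 3
  else if ∃ a, On pt ln a (ln u) ∧ On pt ln a (ln v) then 4 else 5
end

variable {pt : W → A} {ln : W → Option B}

theorem dd_self (v : W) : dd pt ln v v = 0 := by simp [dd]

theorem dd_le (u v : W) : dd pt ln u v ≤ 5 := by
  unfold dd
  split_ifs <;> omega

theorem LinStr.eq_of_dd (h : LinStr pt ln) {u v : W} (h0 : dd pt ln u v = 0) : u = v := by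
  unfold dd at h0
  split_ifs at h0
  rename_i h1 h2
  exact h.inj u v h1 h2

/-- two distinct points lie on at most one line -/
theorem LinStr.line_unique (h : LinStr pt ln) {a b : A} {l l' : Option B} (hab : a ≠ b)
    (hl : l ≠ none) (hl' : l' ≠ none) (h1 : On pt ln a l) (h2 : On pt ln b l)
    (h3 : On pt ln a l') (h4 : On pt ln b l') : l = l' := by
  obtain ⟨f, rfl, rfl⟩ := h1
  obtain ⟨g, rfl, hg⟩ := h2
  obtain ⟨f', hf', rfl⟩ := h3
  obtain ⟨g', hg', hg2⟩ := h4
  exact h.uniq f g f' g' hf'.symm hg'.symm hab hg.symm hl hg2.symm hl'

theorem on_self (w : W) : On pt ln (pt w) (ln w) := ⟨w, rfl, rfl⟩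

theorem LinStr.local (h : LinStr pt ln) : Local (gr pt ln) (dd pt ln) := by
  refine ⟨dd_self, fun u v huv => ?_⟩
  by_cases hp : pt u = pt v
  · have hl : ln u ≠ ln v := fun hl => huv (h.inj u v hp hl)
    by_cases h1 : ln u = none ∨ ln v = none
    · refine ⟨v, Or.inl ⟨hp, ?_⟩, ?_, fun w' hw' hne => ?_⟩
      · by_cases hu : ln u = none
        · exact Or.inl ⟨hu, fun hv => hl (hu.trans hv.symm)⟩
        · exact Or.inr ⟨hu, by tauto⟩
      · rw [dd_self]
        simp [dd, hp, hl, h1]
      · have e : dd pt ln u v = 1 := by simp [dd, hp, hl, h1]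
        rw [e]
        have : dd pt ln w' v ≠ 0 := fun h0 => hne (h.eq_of_dd h0)
        omega
    · push Not at h1
      have e : dd pt ln u v = 2 := by simp [dd, hp, hl, h1.1, h1.2]
      obtain ⟨c, hc1, hc2⟩ := h.hub u
      refine ⟨c, Or.inl ⟨hc1.symm, Or.inr ⟨h1.1, hc2⟩⟩, ?_, fun w' hw' hne => ?_⟩
      · rw [e]
        have e1 : ln c ≠ ln v := by rw [hc2]; exact fun h => h1.2 h.symm
        unfold dd
        rw [if_pos (hc1.trans hp), if_neg e1, if_pos (Or.inl hc2)]
      · rw [e]
        rcases hw' with ⟨h2, h3⟩ | ⟨h2, h3, h4⟩
        · have : ln w' = none := by tauto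
          exact absurd (h.inj w' c (h2.symm.trans hc1.symm) (this.trans hc2.symm)) hne
        · have e1 : pt w' ≠ pt v := fun hh => h2 (hp.trans hh.symm)
          have e2 : ln w' ≠ none := h3 ▸ h4
          have e3 : ln w' ≠ ln v := h3 ▸ hl
          unfold dd
          rw [if_neg e1, if_neg e2, if_neg h1.2, if_neg e3]
          split_ifs <;> omega
  · by_cases hu : ln u = none
    · by_cases hv : ln v = none
      · have e : dd pt ln u v = 3 := by simp [dd, hp, hu, hv]
        obtain ⟨f, g, hf, hg, hfg, hfn⟩ := h.join u v hp
        have onv : On pt ln (pt v) (ln f) := ⟨g, hg, hfg.symm⟩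
        refine ⟨f, Or.inl ⟨hf.symm, Or.inl ⟨hu, hfn⟩⟩, ?_, fun w' hw' hne => ?_⟩
        · rw [e]
          have e1 : pt f ≠ pt v := hf ▸ hp
          unfold dd
          rw [if_neg e1, if_neg hfn, if_pos hv, if_pos onv]
        · rw [e]
          rcases hw' with ⟨h2, h3⟩ | ⟨h2, h3, h4⟩
          · have e2 : ln w' ≠ none := by tauto
            have e1 : pt w' ≠ pt v := h2 ▸ hp
            have e3 : ¬ On pt ln (pt v) (ln w') := by
              intro hon
              have := h.line_unique hp hfn e2 ⟨f, hf, rfl⟩ onv ⟨w', h2.symm, rfl⟩ hon
              exact hne (h.inj w' f (h2.symm.trans hf.symm) this.symm)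
            unfold dd
            rw [if_neg e1, if_neg e2, if_pos hv, if_neg e3]
            omega
          · exact absurd hu h4
      · by_cases hon : On pt ln (pt u) (ln v)
        · have e : dd pt ln u v = 2 := by simp [dd, hp, hu, hv, hon]
          obtain ⟨f, hf1, hf2⟩ := hon
          have hfn : ln f ≠ none := hf2 ▸ hv
          refine ⟨f, Or.inl ⟨hf1.symm, Or.inl ⟨hu, hfn⟩⟩, ?_, fun w' hw' hne => ?_⟩
          · rw [e]
            have e1 : pt f ≠ pt v := hf1 ▸ hp
            unfold dd
            rw [if_neg e1, if_neg hfn, if_neg hv, if_pos hf2]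
          · rw [e]
            rcases hw' with ⟨h2, h3⟩ | ⟨h2, h3, h4⟩
            · have e2 : ln w' ≠ none := by tauto
              have e1 : pt w' ≠ pt v := h2 ▸ hp
              have e3 : ln w' ≠ ln v := fun hh =>
                hne (h.inj w' f (h2.symm.trans hf1.symm) (hh.trans hf2.symm))
              unfold dd
              rw [if_neg e1, if_neg e2, if_neg hv, if_neg e3]
              split_ifs <;> omega
            · exact absurd hu h4
        · have e : dd pt ln u v = 4 := by simp [dd, hp, hu, hv, hon]
          obtain ⟨f, g, hf, hg, hfg, hfn⟩ := h.join u v hp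
          have onv : On pt ln (pt v) (ln f) := ⟨g, hg, hfg.symm⟩
          refine ⟨f, Or.inl ⟨hf.symm, Or.inl ⟨hu, hfn⟩⟩, ?_, fun w' hw' hne => ?_⟩
          · rw [e]
            have e1 : pt f ≠ pt v := hf ▸ hp
            have e2 : ln f ≠ ln v := fun hh => hon ⟨f, hf, hh⟩
            unfold dd
            rw [if_neg e1, if_neg hfn, if_neg hv, if_neg e2, if_pos (Or.inl onv)]
          · rw [e]
            rcases hw' with ⟨h2, h3⟩ | ⟨h2, h3, h4⟩
            · have e2 : ln w' ≠ none := by tauto
              have e1 : pt w' ≠ pt v := h2 ▸ hp
              have e3 : ln w' ≠ ln v := fun hh => hon ⟨w', h2.symm, hh⟩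
              have e4 : ¬ On pt ln (pt v) (ln w') := by
                intro hon'
                have := h.line_unique hp hfn e2 ⟨f, hf, rfl⟩ onv ⟨w', h2.symm, rfl⟩ hon'
                exact hne (h.inj w' f (h2.symm.trans hf.symm) this.symm)
              have e5 : ¬ On pt ln (pt w') (ln v) := by rw [← h2]; exact hon
              unfold dd
              rw [if_neg e1, if_neg e2, if_neg hv, if_neg e3, if_neg (by tauto)]
              split_ifs <;> omega
            · exact absurd hu h4
    · by_cases hv : ln v = none
      · by_cases hon : On pt ln (pt v) (ln u)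
        · have e : dd pt ln u v = 2 := by simp [dd, hp, hu, hv, hon]
          obtain ⟨g, hg1, hg2⟩ := hon
          refine ⟨g, Or.inr ⟨fun hh => hp (hh.trans hg1), hg2.symm, hu⟩, ?_, fun w' hw' hne => ?_⟩
          · rw [e]
            have e2 : ln g ≠ ln v := by rw [hg2, hv]; exact hu
            unfold dd
            rw [if_pos hg1, if_neg e2, if_pos (Or.inr hv)]
          · rw [e]
            rcases hw' with ⟨h2, h3⟩ | ⟨h2, h3, h4⟩
            · have e2 : ln w' = none := by tauto
              have e1 : pt w' ≠ pt v := h2 ▸ hp
              unfold dd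
              rw [if_neg e1, if_pos e2, if_pos hv]
              omega
            · have e1 : pt w' ≠ pt v := fun hh =>
                hne (h.inj w' g (hh.trans hg1.symm) (h3.symm.trans hg2.symm))
              have e2 : ln w' ≠ none := h3 ▸ h4
              unfold dd
              rw [if_neg e1, if_neg e2, if_pos hv]
              split_ifs <;> omega
        · have e : dd pt ln u v = 4 := by simp [dd, hp, hu, hv, hon]
          obtain ⟨c, hc1, hc2⟩ := h.hub u
          refine ⟨c, Or.inl ⟨hc1.symm, Or.inr ⟨hu, hc2⟩⟩, ?_, fun w' hw' hne => ?_⟩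
          · rw [e]
            have e1 : pt c ≠ pt v := hc1 ▸ hp
            unfold dd
            rw [if_neg e1, if_pos hc2, if_pos hv]
          · rw [e]
            rcases hw' with ⟨h2, h3⟩ | ⟨h2, h3, h4⟩
            · have : ln w' = none := by tauto
              exact absurd (h.inj w' c (h2.symm.trans hc1.symm) (this.trans hc2.symm)) hne
            · have e1 : pt w' ≠ pt v := fun hh => hon ⟨w', hh, h3.symm⟩
              have e2 : ln w' ≠ none := h3 ▸ h4
              have e3 : ¬ On pt ln (pt v) (ln w') := h3 ▸ hon
              unfold dd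
              rw [if_neg e1, if_neg e2, if_pos hv, if_neg e3]
      · by_cases hl : ln u = ln v
        · have e : dd pt ln u v = 1 := by
            unfold dd
            rw [if_neg hp, if_neg hu, if_neg hv, if_pos hl]
          refine ⟨v, Or.inr ⟨hp, hl, hu⟩, ?_, fun w' hw' hne => ?_⟩
          · rw [dd_self, e]
          · rw [e]
            have : dd pt ln w' v ≠ 0 := fun h0 => hne (h.eq_of_dd h0)
            omega
        · by_cases hA : On pt ln (pt v) (ln u)
          · have e : dd pt ln u v = 3 := by
              unfold dd
              rw [if_neg hp, if_neg hu, if_neg hv, if_neg hl, if_pos (Or.inl hA)]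
            obtain ⟨g, hg1, hg2⟩ := id hA
            have e0 : ln g ≠ ln v := hg2 ▸ hl
            have e0' : ln g ≠ none := hg2 ▸ hu
            refine ⟨g, Or.inr ⟨fun hh => hp (hh.trans hg1), hg2.symm, hu⟩, ?_,
              fun w' hw' hne => ?_⟩
            · rw [e]
              unfold dd
              rw [if_pos hg1, if_neg e0, if_neg (by tauto)]
            · rw [e]
              rcases hw' with ⟨h2, h3⟩ | ⟨h2, h3, h4⟩
              · have e2 : ln w' = none := by tauto
                have e1 : pt w' ≠ pt v := h2 ▸ hp
                have e3 : ¬ On pt ln (pt w') (ln v) := by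
                  intro hon
                  rw [← h2] at hon
                  exact hl (h.line_unique hp hu hv (on_self u) hA hon (on_self v))
                unfold dd
                rw [if_neg e1, if_pos e2, if_neg hv, if_neg e3]
                omega
              · have e1 : pt w' ≠ pt v := fun hh =>
                  hne (h.inj w' g (hh.trans hg1.symm) (h3.symm.trans hg2.symm))
                have e2 : ln w' ≠ none := h3 ▸ h4
                have e3 : ln w' ≠ ln v := h3 ▸ hl
                have e4 : On pt ln (pt v) (ln w') := h3 ▸ hA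
                unfold dd
                rw [if_neg e1, if_neg e2, if_neg hv, if_neg e3, if_pos (Or.inl e4)]
          · by_cases hB : On pt ln (pt u) (ln v)
            · have e : dd pt ln u v = 3 := by
                unfold dd
                rw [if_neg hp, if_neg hu, if_neg hv, if_neg hl, if_pos (Or.inr hB)]
              obtain ⟨c, hc1, hc2⟩ := h.hub u
              refine ⟨c, Or.inl ⟨hc1.symm, Or.inr ⟨hu, hc2⟩⟩, ?_, fun w' hw' hne => ?_⟩
              · rw [e]
                have e1 : pt c ≠ pt v := hc1 ▸ hp
                have e2 : On pt ln (pt c) (ln v) := hc1 ▸ hB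
                unfold dd
                rw [if_neg e1, if_pos hc2, if_neg hv, if_pos e2]
              · rw [e]
                rcases hw' with ⟨h2, h3⟩ | ⟨h2, h3, h4⟩
                · have : ln w' = none := by tauto
                  exact absurd (h.inj w' c (h2.symm.trans hc1.symm) (this.trans hc2.symm)) hne
                · have e1 : pt w' ≠ pt v := fun hh => hA ⟨w', hh, h3.symm⟩
                  have e2 : ln w' ≠ none := h3 ▸ h4
                  have e3 : ln w' ≠ ln v := h3 ▸ hl
                  have e4 : ¬ On pt ln (pt v) (ln w') := h3 ▸ hA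
                  have e5 : ¬ On pt ln (pt w') (ln v) := by
                    intro hon
                    exact hl (h.line_unique h2 hu hv (on_self u) ⟨w', rfl, h3.symm⟩ hB hon)
                  unfold dd
                  rw [if_neg e1, if_neg e2, if_neg hv, if_neg e3, if_neg (by tauto)]
                  split_ifs <;> omega
            · by_cases hC : ∃ a, On pt ln a (ln u) ∧ On pt ln a (ln v)
              · have e : dd pt ln u v = 4 := by
                  unfold dd
                  rw [if_neg hp, if_neg hu, if_neg hv, if_neg hl, if_neg (by tauto), if_pos hC]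
                obtain ⟨a, ha1, ha2⟩ := hC
                obtain ⟨g, hg1, hg2⟩ := id ha1
                have n1 : a ≠ pt u := fun hh => hB (hh ▸ ha2)
                have n2 : a ≠ pt v := fun hh => hA (hh ▸ ha1)
                have e0 : ln g ≠ ln v := hg2 ▸ hl
                have e0' : ln g ≠ none := hg2 ▸ hu
                refine ⟨g, Or.inr ⟨fun hh => n1 (hg1.symm.trans hh.symm), hg2.symm, hu⟩, ?_,
                  fun w' hw' hne => ?_⟩
                · rw [e]
                  have e1 : pt g ≠ pt v := hg1 ▸ n2
                  have e2 : On pt ln (pt g) (ln v) := hg1 ▸ ha2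
                  unfold dd
                  rw [if_neg e1, if_neg e0', if_neg hv, if_neg e0, if_pos (Or.inr e2)]
                · rw [e]
                  rcases hw' with ⟨h2, h3⟩ | ⟨h2, h3, h4⟩
                  · have e2 : ln w' = none := by tauto
                    have e1 : pt w' ≠ pt v := h2 ▸ hp
                    have e3 : ¬ On pt ln (pt w') (ln v) := h2 ▸ hB
                    unfold dd
                    rw [if_neg e1, if_pos e2, if_neg hv, if_neg e3]
                  · have e1 : pt w' ≠ pt v := fun hh => hA ⟨w', hh, h3.symm⟩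
                    have e2 : ln w' ≠ none := h3 ▸ h4
                    have e3 : ln w' ≠ ln v := h3 ▸ hl
                    have e4 : ¬ On pt ln (pt v) (ln w') := h3 ▸ hA
                    have n3 : a ≠ pt w' := fun hh =>
                      hne (h.inj w' g (hh.symm.trans hg1.symm) (h3.symm.trans hg2.symm))
                    have e5 : ¬ On pt ln (pt w') (ln v) := by
                      intro hon
                      exact hl (h.line_unique n3 hu hv ha1 ⟨w', rfl, h3.symm⟩ ha2 hon)
                    unfold dd
                    rw [if_neg e1, if_neg e2, if_neg hv, if_neg e3, if_neg (by tauto)]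
                    split_ifs <;> omega
              · have e : dd pt ln u v = 5 := by
                  unfold dd
                  rw [if_neg hp, if_neg hu, if_neg hv, if_neg hl, if_neg (by tauto), if_neg hC]
                obtain ⟨c, hc1, hc2⟩ := h.hub u
                refine ⟨c, Or.inl ⟨hc1.symm, Or.inr ⟨hu, hc2⟩⟩, ?_, fun w' hw' hne => ?_⟩
                · rw [e]
                  have e1 : pt c ≠ pt v := hc1 ▸ hp
                  have e2 : ¬ On pt ln (pt c) (ln v) := hc1 ▸ hB
                  unfold dd
                  rw [if_neg e1, if_pos hc2, if_neg hv, if_neg e2]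
                · rw [e]
                  rcases hw' with ⟨h2, h3⟩ | ⟨h2, h3, h4⟩
                  · have : ln w' = none := by tauto
                    exact absurd (h.inj w' c (h2.symm.trans hc1.symm) (this.trans hc2.symm)) hne
                  · have e1 : pt w' ≠ pt v := fun hh => hA ⟨w', hh, h3.symm⟩
                    have e2 : ln w' ≠ none := h3 ▸ h4
                    have e3 : ln w' ≠ ln v := h3 ▸ hl
                    have e4 : ¬ On pt ln (pt v) (ln w') := h3 ▸ hA
                    have e5 : ¬ On pt ln (pt w') (ln v) := fun hon =>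
                      hC ⟨pt w', ⟨w', rfl, h3.symm⟩, hon⟩
                    have e6 : ¬ ∃ a, On pt ln a (ln w') ∧ On pt ln a (ln v) := h3 ▸ hC
                    unfold dd
                    rw [if_neg e1, if_neg e2, if_neg hv, if_neg e3, if_neg (by tauto), if_neg e6]

end Pool.Agent.LibGeo
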