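import Pool.Agent.LibGeo.Reduce

/-!
Isomorphism of geodetic graphs is as hard as isomorphism of all graphs.
-/

set_option autoImplicit false

namespace Pool.Agent.LibGeo

open SimpleGraph Pool.Agent.LibComplexity Function Enc

/-- Some deterministic Turing machine decides, in time polynomial in the total number of
vertices, whether two given graphs `G`, `H` of the class `𝒞` are isomorphic. Nothing is required
of the machine on other inputs. -/
def IsoInPolyTime (𝒞 : ∀ n : ℕ, SimpleGraph (Fin n) → Prop) : Prop :=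
  ∃ (M : TM) (p : Polynomial ℕ), M.Det ∧ ∀ (n m : ℕ) (G : SimpleGraph (Fin n))
    (H : SimpleGraph (Fin m)), 𝒞 n G → 𝒞 m H → ∀ β, ∃ c b,
      M.Halts ∅ (encodePair G H) β (p.eval (n + m)) c b ∧ (b = true ↔ Nonempty (G ≃g H))

theorem exists_tm_of_dec {𝒜 : Set Orc} {f : Orc → List Bool → Bool} (hf : PTf 𝒜 f) :
    ∃ (M : TM) (p : Polynomial ℕ), M.Det ∧
      ∀ A ∈ 𝒜, ∀ w β, ∃ c, M.Halts A w β (p.eval w.length) c (f A w) := by
  obtain ⟨c, hc, P, hP⟩ := hf
  obtain ⟨M, hM, hM'⟩ := exists_tm_dec (.seq tolist c)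
  let T : Polynomial ℕ := 2 * (9 * Polynomial.X + 3 + P.comp (4 * Polynomial.X + 1) + 1)
  refine ⟨M, T, hM ⟨det_tolist, hc⟩, ?_⟩
  intro A hA w β
  have h1 := runs_tolist (A := A) w
  have h2 := hP A hA w
  obtain ⟨t, ht, h⟩ := (h1.seq h2) β
  rw [← inp_eq, ← inp_eq] at h
  obtain ⟨r, hr⟩ := top_bool (f A w)
  obtain ⟨cf, n, hn, hh⟩ := hM' A w β _ _ _ (f A w) r h (by simpa [inp] using hr)
  refine ⟨cf, n, hn.trans ?_, hh⟩
  simp only [T, Polynomial.eval_add, Polynomial.eval_mul, Polynomial.eval_X,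
    Polynomial.eval_ofNat, Polynomial.eval_comp, Polynomial.eval_one]
  have h4 := peval_mono P (sz_word_le w)
  omega

theorem length_encodePair {n m : ℕ} (G : SimpleGraph (Fin n)) (H : SimpleGraph (Fin m)) :
    (encodePair G H).length = n + m + 2 + n * n + m * m := by
  simp only [encodePair, List.length_append, List.length_cons, List.length_replicate,
    length_matrixBits]
  omega

theorem IsoInPolyTime.mono {𝒞 𝒞' : ∀ n : ℕ, SimpleGraph (Fin n) → Prop}
    (h : ∀ n G, 𝒞 n G → 𝒞' n G) (h' : IsoInPolyTime 𝒞') : IsoInPolyTime 𝒞 := by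
  obtain ⟨M, p, hM, hp⟩ := h'
  exact ⟨M, p, hM, fun n m G H hG hH => hp n m G H (h n G hG) (h m H hH)⟩

/-- the reduction is correct -/
theorem red_spec {n m : ℕ} (G : SimpleGraph (Fin n)) (H : SimpleGraph (Fin m)) :
    ∃ (n' m' : ℕ) (G' : SimpleGraph (Fin n')) (H' : SimpleGraph (Fin m')),
      red (encodePair G H) = encodePair G' H' ∧
      (Geodetic G' ∧ TwoConnected G' ∧ DiamLE G' 5) ∧
      (Geodetic H' ∧ TwoConnected H' ∧ DiamLE H' 5) ∧
      (Nonempty (G' ≃g H') ↔ Nonempty (G ≃g H)) := by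
  obtain ⟨a, b, ha, hb, h⟩ := red_encodePair G H
  exact ⟨_, _, outG n a, outG m b, h, ⟨outG_geodetic, outG_twoConnected, outG_diam⟩,
    ⟨outG_geodetic, outG_twoConnected, outG_diam⟩, outG_iso_iff ha hb⟩

theorem isoInPolyTime_of_block
    (h : IsoInPolyTime fun _ G => Geodetic G ∧ TwoConnected G ∧ DiamLE G 5) :
    IsoInPolyTime fun _ _ => True := by
  obtain ⟨M, p, hM, hp⟩ := h
  have hg : PTf ({∅} : Set Orc) (fun A (w : List Bool) =>
      answer M ((stepC M A)^[p.eval (red w).length] (initC M (red w) [])).1) :=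
    PTf.answer M (PTf.simC M ptf_red (PTf.const []) (ptf_red.length.poly p)).fst
  obtain ⟨M', p', hM', hp'⟩ := exists_tm_of_dec hg
  refine ⟨M', p'.comp (Polynomial.X ^ 2 + Polynomial.X + 2), hM', ?_⟩
  intro n m G H _ _ β
  obtain ⟨c, n0, hn0, hc1, hc2⟩ := hp' ∅ rfl (encodePair G H) β
  refine ⟨c, _, ⟨n0, hn0.trans ?_, hc1, hc2⟩, ?_⟩
  · rw [Polynomial.eval_comp]
    apply peval_mono
    rw [length_encodePair]
    simp only [Polynomial.eval_add, Polynomial.eval_pow, Polynomial.eval_X, Polynomial.eval_ofNat]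
    nlinarith [Nat.zero_le (n * m)]
  · obtain ⟨n', m', G', H', h1, h2, h3, h4⟩ := red_spec G H
    rw [← h4, h1]
    obtain ⟨c', b', h5, h6⟩ := hp n' m' G' H' h2 h3 (fun k => ([] : List Bool).getD k false)
    have h7 : M.Halts ∅ (encodePair G' H') (fun k => ([] : List Bool).getD k false)
        (p.eval (encodePair G' H').length) c' b' := by
      obtain ⟨n1, hn1, h8⟩ := h5
      refine ⟨n1, hn1.trans (peval_mono p ?_), h8⟩
      rw [length_encodePair]
      omega
    have h8 := repC_halts h7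
    have h9 : answer M ((stepC M ∅)^[p.eval (encodePair G' H').length]
        (initC M (encodePair G' H') [])).1 = b' := by
      obtain ⟨n1, hn1, h9, h10⟩ := h7
      rw [← h8.q]
      unfold answer
      rw [h10]
    rw [h9]
    exact h6

end Pool.Agent.LibGeo
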