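import Pool.Agent.LibGeo.Codes

/-!
The geodetic graph of a graph on `Fin n`, as a graph on `Fin m`.
-/

set_option autoImplicit false

namespace Pool.Agent.LibGeo

open SimpleGraph

section transport

variable {W W' A B : Type} {pt : W → A} {ln : W → Option B}

theorem On.comp {π : W' → W} (hπ : Function.Surjective π) {p : A} {l : Option B} :
    On (pt ∘ π) (ln ∘ π) p l ↔ On pt ln p l := by
  constructor
  · rintro ⟨f, h1, h2⟩
    exact ⟨π f, h1, h2⟩
  · rintro ⟨f, h1, h2⟩
    obtain ⟨g, rfl⟩ := hπ f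
    exact ⟨g, h1, h2⟩

theorem LinStr.comp (h : LinStr pt ln) {π : W' → W} (hπ : Function.Bijective π) :
    LinStr (pt ∘ π) (ln ∘ π) where
  inj w w' h1 h2 := hπ.1 (h.inj _ _ h1 h2)
  hub w := by
    obtain ⟨c, h1, h2⟩ := h.hub (π w)
    obtain ⟨d, rfl⟩ := hπ.2 c
    exact ⟨d, h1, h2⟩
  join w w' hne := by
    obtain ⟨f, g, h1, h2, h3, h4⟩ := h.join (π w) (π w') hne
    obtain ⟨f', rfl⟩ := hπ.2 f
    obtain ⟨g', rfl⟩ := hπ.2 g
    exact ⟨f', g', h1, h2, h3, h4⟩
  uniq f g f' g' := h.uniq (π f) (π g) (π f') (π g')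

theorem Nondeg.comp (h : Nondeg pt ln) {π : W' → W} (hπ : Function.Bijective π) :
    Nondeg (pt ∘ π) (ln ∘ π) where
  two f hf := by
    obtain ⟨g, h1, h2⟩ := h.two (π f) hf
    obtain ⟨g', rfl⟩ := hπ.2 g
    exact ⟨g', h1, h2⟩
  off l hl := by
    obtain ⟨c, h1, h2⟩ := h.off l hl
    obtain ⟨d, rfl⟩ := hπ.2 c
    exact ⟨d, h1, fun h3 => h2 ((On.comp hπ.2).1 h3)⟩
  three := by
    obtain ⟨a, b, c, h1, h2, h3⟩ := h.three
    obtain ⟨a', rfl⟩ := hπ.2 a
    obtain ⟨b', rfl⟩ := hπ.2 b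
    obtain ⟨c', rfl⟩ := hπ.2 c
    exact ⟨a', b', c', fun h => h1 (by rw [h]), fun h => h2 (by rw [h]), fun h => h3 (by rw [h])⟩

end transport

variable {n : ℕ} {a : ℕ → ℕ → Bool}

/-- the vertex with a given number -/
def num (n : ℕ) (a : ℕ → ℕ → Bool) (i : Fin (vs n a).length) : SS (plus n a) (· < n) :=
  ⟨kap ((vs n a)[i]), kap_mem (List.getElem_mem i.2)⟩

theorem num_bijective : Function.Bijective (num n a) := by
  constructor
  · intro i j h
    have h1 : kap ((vs n a)[i]) = kap ((vs n a)[j]) := congrArg Subtype.val h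
    have h2 := kap_inj (List.getElem_mem i.2) (List.getElem_mem j.2) h1
    exact Fin.ext ((nodup_vs.getElem_inj_iff).1 h2)
  · rintro ⟨z, hz⟩
    obtain ⟨x, hx, rfl⟩ := kap_surj hz
    obtain ⟨i, hi, rfl⟩ := List.getElem_of_mem hx
    exact ⟨⟨i, hi⟩, rfl⟩

/-- the geodetic graph -/
def outG (n : ℕ) (a : ℕ → ℕ → Bool) : SimpleGraph (Fin (vs n a).length) :=
  gr (sp ∘ num n a) (sl ∘ num n a)

theorem outG_adj (i j : Fin (vs n a).length) :
    (outG n a).Adj i j ↔ adjc ((vs n a)[(i : ℕ)]) ((vs n a)[(j : ℕ)]) = true := by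
  rw [adjc_iff (List.getElem_mem i.2) (List.getElem_mem j.2)]
  rfl

/-- the isomorphism with the graph of points and flags -/
noncomputable def outIso (n : ℕ) (a : ℕ → ℕ → Bool) :
    outG n a ≃g gr (sp (Γ := plus n a) (low := (· < n))) sl :=
  { Equiv.ofBijective (num n a) num_bijective with map_rel_iff' := Iff.rfl }

theorem good_plus : Good (plus n a) (· < n) where
  deg u hu := by
    refine ⟨n, n + 1, n + 2, by omega, by omega, by omega, ?_, ?_, ?_⟩ <;> left <;>
      exact ⟨by omega, by omega, Or.inl (by omega)⟩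
  tri := by
    refine ⟨n, n + 1, n + 2, by omega, by omega, by omega, ?_, ?_, ?_⟩ <;> left <;>
      exact ⟨by omega, by omega, Or.inl (by omega)⟩

theorem outG_linStr : LinStr (sp ∘ num n a) (sl ∘ num n a) := linStr_SS.comp num_bijective

theorem outG_twoConnected : TwoConnected (outG n a) :=
  outG_linStr.twoConnected ((nondeg_SS good_plus).comp num_bijective)

instance : Nonempty (Fin (vs n a).length) := by
  obtain ⟨i, _⟩ := ((nondeg_SS (good_plus (n := n) (a := a))).comp num_bijective).three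
  exact ⟨i⟩

theorem outG_geodetic : Geodetic (outG n a) := outG_linStr.local.geodetic

theorem outG_diam : DiamLE (outG n a) 5 := by
  intro u v
  have := outG_linStr (n := n) (a := a) |>.local.dist_eq u v
  rw [show outG n a = gr (sp ∘ num n a) (sl ∘ num n a) from rfl, this]
  exact dd_le u v

/-- `a` is the adjacency function of the graph `X` -/
def Agree {n : ℕ} (a : ℕ → ℕ → Bool) (X : SimpleGraph (Fin n)) : Prop :=
  ∀ i j : Fin n, a i j = true ↔ X.Adj i j

theorem pres {X : SimpleGraph (Fin n)} (h : Agree a X) :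
    Pres X (plus n a) (· < n) (fun i : Fin n => (i : ℕ)) where
  inj := Fin.val_injective
  range u := by
    constructor
    · intro hu
      exact ⟨⟨u, hu⟩, rfl⟩
    · rintro ⟨v, rfl⟩
      exact v.2
  adj u v := by
    rw [← h u v]
    have hsymm : a u v = true ↔ a v u = true := by rw [h, h, X.adj_comm]
    have hirr : a u u = false := by
      by_contra hh
      exact X.loopless.irrefl u ((h u u).1 (by simpa using hh))
    simp only [plus]
    constructor
    · intro h1
      rcases lt_trichotomy (u : ℕ) v with h2 | h2 | h2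
      · exact Or.inl ⟨h2, by omega, Or.inr h1⟩
      · have : u = v := Fin.ext h2
        subst this
        rw [hirr] at h1
        simp at h1
      · exact Or.inr ⟨h2, by omega, Or.inr (hsymm.1 h1)⟩
    · rintro (⟨h1, h2, h3⟩ | ⟨h1, h2, h3⟩)
      · rcases h3 with h3 | h3
        · omega
        · exact h3
      · rcases h3 with h3 | h3
        · omega
        · exact hsymm.2 h3

/-- extension of a permutation by the identity -/
def ext (σ : Fin n ≃ Fin n) : ℕ ≃ ℕ where
  toFun i := if h : i < n then σ ⟨i, h⟩ else i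
  invFun i := if h : i < n then σ.symm ⟨i, h⟩ else i
  left_inv i := by
    by_cases h : i < n
    · simp [h]
    · simp [h]
  right_inv i := by
    by_cases h : i < n
    · simp [h]
    · simp [h]

theorem ext_lt (σ : Fin n ≃ Fin n) (i : ℕ) : i < n ↔ ext σ i < n := by
  unfold ext
  simp only [Equiv.coe_fn_mk]
  split_ifs with h
  · simp [h]
  · simp [h]

theorem ext_of_lt (σ : Fin n ≃ Fin n) (i : Fin n) : ext σ i = σ i := by simp [ext]

theorem ext_of_ge (σ : Fin n ≃ Fin n) {i : ℕ} (h : n ≤ i) : ext σ i = i := by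
  simp [ext, h]

theorem plus_adj_iff {X : SimpleGraph (Fin n)} (h : Agree a X) (i j : ℕ) :
    (plus n a).Adj i j ↔ i ≠ j ∧ i < n + 3 ∧ j < n + 3 ∧
      (n ≤ i ∨ n ≤ j ∨ ∃ (hi : i < n) (hj : j < n), X.Adj ⟨i, hi⟩ ⟨j, hj⟩) := by
  by_cases hij : i < n ∧ j < n
  · obtain ⟨hi, hj⟩ := hij
    have := (pres h).adj ⟨i, hi⟩ ⟨j, hj⟩
    simp only at this
    rw [← this]
    constructor
    · intro h1
      refine ⟨fun hh => h1.ne (Fin.ext hh), by omega, by omega, Or.inr (Or.inr ⟨hi, hj, h1⟩)⟩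
    · rintro ⟨h1, _, _, h2 | h2 | ⟨_, _, h2⟩⟩
      · omega
      · omega
      · exact h2
  · simp only [plus]
    constructor
    · intro h1
      refine ⟨by omega, by omega, by omega, ?_⟩
      omega
    · rintro ⟨h1, h2, h3, h4⟩
      rcases lt_trichotomy i j with h5 | h5 | h5
      · left
        refine ⟨h5, h3, Or.inl ?_⟩
        omega
      · omega
      · right
        refine ⟨h5, h2, Or.inl ?_⟩
        omega

theorem plus_iso {b : ℕ → ℕ → Bool} {X Y : SimpleGraph (Fin n)} (hX : Agree a X) (hY : Agree b Y)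
    (σ : X ≃g Y) : ∃ θ : plus n a ≃g plus n b, ∀ u, u < n ↔ θ u < n := by
  refine ⟨⟨ext σ.toEquiv, ?_⟩, ext_lt _⟩
  intro i j
  rw [plus_adj_iff hX, plus_adj_iff hY]
  have e1 : ∀ i : ℕ, n ≤ i ↔ n ≤ ext σ.toEquiv i := by
    intro i
    have := ext_lt σ.toEquiv i
    omega
  have e2 : ∀ i : ℕ, i < n + 3 ↔ ext σ.toEquiv i < n + 3 := by
    intro i
    by_cases h : i < n
    · have := (ext_lt σ.toEquiv i).1 h
      omega
    · rw [ext_of_ge _ (by omega)]
  rw [← e1, ← e1, ← e2, ← e2, (ext σ.toEquiv).injective.ne_iff]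
  apply and_congr Iff.rfl
  apply and_congr Iff.rfl
  apply and_congr Iff.rfl
  apply or_congr Iff.rfl
  apply or_congr Iff.rfl
  constructor
  · rintro ⟨hi, hj, h⟩
    have hi' := (ext_lt σ.toEquiv i).2 hi
    have hj' := (ext_lt σ.toEquiv j).2 hj
    refine ⟨hi', hj', ?_⟩
    rw [← σ.map_rel_iff]
    convert h using 2
    · exact (ext_of_lt σ.toEquiv ⟨i, hi'⟩).symm
    · exact (ext_of_lt σ.toEquiv ⟨j, hj'⟩).symm
  · rintro ⟨hi, hj, h⟩
    refine ⟨(ext_lt σ.toEquiv i).1 hi, (ext_lt σ.toEquiv j).1 hj, ?_⟩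
    rw [← σ.map_rel_iff] at h
    convert h using 2
    · exact (ext_of_lt σ.toEquiv ⟨i, hi⟩)
    · exact (ext_of_lt σ.toEquiv ⟨j, hj⟩)

/-- The construction preserves and reflects isomorphism. -/
theorem outG_iso_iff {m : ℕ} {b : ℕ → ℕ → Bool} {X : SimpleGraph (Fin n)}
    {Y : SimpleGraph (Fin m)} (hX : Agree a X) (hY : Agree b Y) :
    Nonempty (outG n a ≃g outG m b) ↔ Nonempty (X ≃g Y) := by
  constructor
  · rintro ⟨φ⟩
    have φ' := ((outIso n a).symm.trans φ).trans (outIso m b)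
    exact Repr.iso linStr_SS linStr_SS (repr_SS good_plus (pres hX)) (repr_SS good_plus (pres hY)) φ'
  · rintro ⟨σ⟩
    have hnm : n = m := by simpa using Fintype.card_congr σ.toEquiv
    subst hnm
    obtain ⟨θ, hθ⟩ := plus_iso hX hY σ
    exact ⟨((outIso n a).trans (grIso θ hθ)).trans (outIso n b).symm⟩

end Pool.Agent.LibGeo
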