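import Pool.Agent.LibGeo.Out
import Pool.Agent.LibComplexity.Sim

/-!
The reduction is computable in polynomial time.
-/

set_option autoImplicit false

namespace Pool.Agent.LibGeo

open SimpleGraph Pool.Agent.LibComplexity

open Classical in
/-- The adjacency matrix of a graph on `{0, ..., n-1}`, row by row. -/
noncomputable def matrixBits {n : ℕ} (G : SimpleGraph (Fin n)) : List Bool :=
  (List.finRange n).flatMap fun i => (List.finRange n).map fun j => decide (G.Adj i j)

/-- The word that encodes a pair of graphs: the numbers of vertices in unary, each ended by
`false`, and the two adjacency matrices. -/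
noncomputable def encodePair {n m : ℕ} (G : SimpleGraph (Fin n)) (H : SimpleGraph (Fin m)) :
    List Bool :=
  List.replicate n true ++ false :: (List.replicate m true ++ false ::
    (matrixBits G ++ matrixBits H))

/-- number of leading `true`s -/
def hd (w : List Bool) : ℕ := (w.takeWhile fun b => b).length

theorem hd_replicate (n : ℕ) (w : List Bool) : hd (List.replicate n true ++ false :: w) = n := by
  unfold hd
  induction n with
  | zero => simp
  | succ n ih => simp [List.replicate_succ]

theorem drop_replicate (n : ℕ) (w : List Bool) :
    (List.replicate n true ++ false :: w).drop (n + 1) = w := by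
  rw [List.drop_append]
  simp

theorem length_flatMap_const {α β : Type} (l : List α) (f : α → List β) (k : ℕ)
    (hf : ∀ x ∈ l, (f x).length = k) : (l.flatMap f).length = l.length * k := by
  induction l with
  | nil => simp
  | cons x l ih =>
    rw [List.flatMap_cons, List.length_append, ih (fun y hy => hf y (List.mem_cons_of_mem _ hy)),
      hf x List.mem_cons_self, List.length_cons]
    ring

theorem getD_flatMap {α β : Type} (d : β) (f : α → List β) (k : ℕ) :
    ∀ (l : List α) (_ : ∀ x ∈ l, (f x).length = k) (i j : ℕ) (hi : i < l.length) (_ : j < k),
      (l.flatMap f).getD (i * k + j) d = (f l[i]).getD j d := by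
  intro l
  induction l with
  | nil => intro _ i j hi; simp at hi
  | cons x l ih =>
    intro hf i j hi hj
    rw [List.flatMap_cons]
    have hx := hf x List.mem_cons_self
    cases i with
    | zero =>
      rw [List.getD_append _ _ _ _ (by omega)]
      simp
    | succ i =>
      rw [List.getD_append_right _ _ _ _ (by rw [hx]; nlinarith)]
      have e : (i + 1) * k + j - (f x).length = i * k + j := by
        rw [hx]
        have : (i + 1) * k = i * k + k := by ring
        omega
      rw [e, ih (fun y hy => hf y (List.mem_cons_of_mem _ hy)) i j (by simpa using hi) hj]
      simp

theorem length_matrixBits {n : ℕ} (G : SimpleGraph (Fin n)) : (matrixBits G).length = n * n := by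
  unfold matrixBits
  rw [length_flatMap_const _ _ n (by simp)]
  simp

theorem matrixBits_getD {n : ℕ} (G : SimpleGraph (Fin n)) (i j : Fin n) :
    (matrixBits G).getD (i * n + j) false = true ↔ G.Adj i j := by
  unfold matrixBits
  rw [getD_flatMap false _ n _ (by simp) i j (by simp) j.2]
  simp

/-- the adjacency function read from a word -/
def look (w : List Bool) (off n i j : ℕ) : Bool := w.getD (off + (i * n + j)) false

theorem agree_look {n : ℕ} (G : SimpleGraph (Fin n)) (u v : List Bool) :
    Agree (look (u ++ (matrixBits G ++ v)) u.length n) G := by
  intro i j
  unfold look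
  have h1 : (i : ℕ) * n + j < n * n := by
    have := i.2
    have := j.2
    nlinarith
  rw [List.getD_append_right _ _ _ _ (by omega), Nat.add_sub_cancel_left,
    List.getD_append _ _ _ _ (by rw [length_matrixBits]; exact h1), matrixBits_getD]

/-- the matrix of the output graph -/
def outBits (l : List Code) : List Bool := l.flatMap fun x => l.map fun y => adjc x y

open Classical in
theorem outBits_vs (n : ℕ) (a : ℕ → ℕ → Bool) : outBits (vs n a) = matrixBits (outG n a) := by
  unfold outBits matrixBits
  have h : ∀ (l : List Code),
      l = (List.finRange l.length).map fun i : Fin l.length => l[(i : ℕ)]'i.2 := by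
    intro l
    rw [← List.ofFn_eq_map]
    simp
  have h1 : ∀ (l : List Code) {β : Type} (g : Code → β),
      l.map g = (List.finRange l.length).map fun i : Fin l.length => g (l[(i : ℕ)]'i.2) := by
    intro l β g
    conv_lhs => rw [h l]
    rw [List.map_map]
    rfl
  have h2 : ∀ (l : List Code) {β : Type} (g : Code → List β),
      l.flatMap g =
        (List.finRange l.length).flatMap fun i : Fin l.length => g (l[(i : ℕ)]'i.2) := by
    intro l β g
    rw [List.flatMap_def, List.flatMap_def, h1 l g]
  rw [h2]
  congr 1
  funext i
  rw [h1]
  congr 1
  funext j
  rw [Bool.eq_iff_iff, decide_eq_true_iff, outG_adj]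

/-- the reduction -/
def red (w : List Bool) : List Bool :=
  List.replicate (vs (hd w) (look ((w.drop (hd w + 1)).drop (hd (w.drop (hd w + 1)) + 1)) 0
      (hd w))).length true ++ false ::
    (List.replicate (vs (hd (w.drop (hd w + 1)))
      (look ((w.drop (hd w + 1)).drop (hd (w.drop (hd w + 1)) + 1)) (hd w * hd w)
        (hd (w.drop (hd w + 1))))).length true ++ false ::
    (outBits (vs (hd w) (look ((w.drop (hd w + 1)).drop (hd (w.drop (hd w + 1)) + 1)) 0 (hd w))) ++
     outBits (vs (hd (w.drop (hd w + 1)))
      (look ((w.drop (hd w + 1)).drop (hd (w.drop (hd w + 1)) + 1)) (hd w * hd w)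
        (hd (w.drop (hd w + 1)))))))

theorem red_encodePair {n m : ℕ} (G : SimpleGraph (Fin n)) (H : SimpleGraph (Fin m)) :
    ∃ a b : ℕ → ℕ → Bool, Agree a G ∧ Agree b H ∧
      red (encodePair G H) = encodePair (outG n a) (outG m b) := by
  have e1 : hd (encodePair G H) = n := hd_replicate _ _
  have e2 : (encodePair G H).drop (n + 1) = List.replicate m true ++ false ::
    (matrixBits G ++ matrixBits H) := drop_replicate _ _
  have e3 : hd (List.replicate m true ++ false :: (matrixBits G ++ matrixBits H)) = m :=
    hd_replicate _ _
  have e4 : (List.replicate m true ++ false :: (matrixBits G ++ matrixBits H)).drop (m + 1) =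
    matrixBits G ++ matrixBits H := drop_replicate _ _
  refine ⟨look (matrixBits G ++ matrixBits H) 0 n, look (matrixBits G ++ matrixBits H) (n * n) m,
    ?_, ?_, ?_⟩
  · exact agree_look G [] (matrixBits H)
  · have := agree_look H (matrixBits G) []
    rwa [length_matrixBits, List.append_nil] at this
  · unfold red
    rw [e1, e2, e3, e4, outBits_vs, outBits_vs]
    rfl

/-! ### Polynomial time -/

section PT

variable {𝒜 : Set Orc}

theorem ptf_hd : PTf 𝒜 (fun _ (w : List Bool) => hd w) := by
  unfold hd
  with_reducible apply PTf.length
  with_reducible apply PTf.takeWhile
  with_reducible apply PTf.id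
  with_reducible apply PTf.snd
  with_reducible apply PTf.id

theorem ptf_pts : PTf 𝒜 (fun _ (x : List Bool × ℕ × ℕ) => pts x.2.2 (look x.1 x.2.1 x.2.2)) := by
  unfold pts look
  with_reducible apply PTf.flatMap
  with_reducible apply PTf.range
  with_reducible apply PTf.add
  with_reducible apply PTf.snd
  with_reducible apply PTf.snd
  with_reducible apply PTf.id
  with_reducible apply PTf.const
  with_reducible apply PTf.map
  with_reducible apply PTf.filter
  with_reducible apply PTf.range
  with_reducible apply PTf.add
  with_reducible apply PTf.snd
  with_reducible apply PTf.snd
  with_reducible apply PTf.fst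
  with_reducible apply PTf.id
  with_reducible apply PTf.const
  with_reducible apply PTf.band
  with_reducible apply PTf.decide_lt
  with_reducible apply PTf.snd
  with_reducible apply PTf.fst
  with_reducible apply PTf.id
  with_reducible apply PTf.snd
  with_reducible apply PTf.id
  with_reducible apply PTf.bor
  with_reducible apply PTf.decide_le
  with_reducible apply PTf.snd
  with_reducible apply PTf.snd
  with_reducible apply PTf.fst
  with_reducible apply PTf.fst
  with_reducible apply PTf.id
  with_reducible apply PTf.snd
  with_reducible apply PTf.id
  with_reducible apply PTf.listGetD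
  with_reducible apply PTf.fst
  with_reducible apply PTf.fst
  with_reducible apply PTf.fst
  with_reducible apply PTf.id
  with_reducible apply PTf.add
  with_reducible apply PTf.fst
  with_reducible apply PTf.snd
  with_reducible apply PTf.fst
  with_reducible apply PTf.fst
  with_reducible apply PTf.id
  with_reducible apply PTf.add
  with_reducible apply PTf.mul
  with_reducible apply PTf.snd
  with_reducible apply PTf.fst
  with_reducible apply PTf.id
  with_reducible apply PTf.snd
  with_reducible apply PTf.snd
  with_reducible apply PTf.fst
  with_reducible apply PTf.fst
  with_reducible apply PTf.id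
  with_reducible apply PTf.snd
  with_reducible apply PTf.id
  with_reducible apply PTf.const
  with_reducible apply PTf.pair
  with_reducible apply PTf.snd
  with_reducible apply PTf.fst
  with_reducible apply PTf.id
  with_reducible apply PTf.snd
  with_reducible apply PTf.id

theorem ptf_vs' : PTf 𝒜 (fun _ (x : List (ℕ × ℕ) × ℕ) => x.1.flatMap fun p => (p, p) ::
    ((([p.1, p.2].filter fun v => decide (v < x.2)).map fun v => (p, (v, v))) ++
      (x.1.filter fun q => !(q == p) && !share x.2 p q).map fun q => (p, q))) := by
  unfold share
  with_reducible apply PTf.flatMap
  with_reducible apply PTf.fst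
  with_reducible apply PTf.id
  with_reducible apply PTf.cons
  with_reducible apply PTf.pair
  with_reducible apply PTf.snd
  with_reducible apply PTf.id
  with_reducible apply PTf.snd
  with_reducible apply PTf.id
  with_reducible apply PTf.append
  with_reducible apply PTf.map
  with_reducible apply PTf.filter
  with_reducible apply PTf.cons
  with_reducible apply PTf.fst
  with_reducible apply PTf.snd
  with_reducible apply PTf.id
  with_reducible apply PTf.cons
  with_reducible apply PTf.snd
  with_reducible apply PTf.snd
  with_reducible apply PTf.id
  with_reducible apply PTf.const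
  with_reducible apply PTf.decide_lt
  with_reducible apply PTf.snd
  with_reducible apply PTf.id
  with_reducible apply PTf.snd
  with_reducible apply PTf.fst
  with_reducible apply PTf.fst
  with_reducible apply PTf.id
  with_reducible apply PTf.pair
  with_reducible apply PTf.snd
  with_reducible apply PTf.fst
  with_reducible apply PTf.id
  with_reducible apply PTf.pair
  with_reducible apply PTf.snd
  with_reducible apply PTf.id
  with_reducible apply PTf.snd
  with_reducible apply PTf.id
  with_reducible apply PTf.map
  with_reducible apply PTf.filter
  with_reducible apply PTf.fst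
  with_reducible apply PTf.fst
  with_reducible apply PTf.id
  with_reducible apply PTf.band
  with_reducible apply PTf.bnot
  with_reducible apply PTf.beq
  with_reducible apply PTf.snd
  with_reducible apply PTf.id
  with_reducible apply PTf.snd
  with_reducible apply PTf.fst
  with_reducible apply PTf.id
  with_reducible apply PTf.bnot
  with_reducible apply PTf.bor
  with_reducible apply PTf.band
  with_reducible apply PTf.decide_lt
  with_reducible apply PTf.fst
  with_reducible apply PTf.snd
  with_reducible apply PTf.fst
  with_reducible apply PTf.id
  with_reducible apply PTf.snd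
  with_reducible apply PTf.fst
  with_reducible apply PTf.fst
  with_reducible apply PTf.id
  with_reducible apply PTf.bor
  with_reducible apply PTf.beq
  with_reducible apply PTf.fst
  with_reducible apply PTf.snd
  with_reducible apply PTf.fst
  with_reducible apply PTf.id
  with_reducible apply PTf.fst
  with_reducible apply PTf.snd
  with_reducible apply PTf.id
  with_reducible apply PTf.beq
  with_reducible apply PTf.fst
  with_reducible apply PTf.snd
  with_reducible apply PTf.fst
  with_reducible apply PTf.id
  with_reducible apply PTf.snd
  with_reducible apply PTf.snd
  with_reducible apply PTf.id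
  with_reducible apply PTf.band
  with_reducible apply PTf.decide_lt
  with_reducible apply PTf.snd
  with_reducible apply PTf.snd
  with_reducible apply PTf.fst
  with_reducible apply PTf.id
  with_reducible apply PTf.snd
  with_reducible apply PTf.fst
  with_reducible apply PTf.fst
  with_reducible apply PTf.id
  with_reducible apply PTf.bor
  with_reducible apply PTf.beq
  with_reducible apply PTf.snd
  with_reducible apply PTf.snd
  with_reducible apply PTf.fst
  with_reducible apply PTf.id
  with_reducible apply PTf.fst
  with_reducible apply PTf.snd
  with_reducible apply PTf.id
  with_reducible apply PTf.beq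
  with_reducible apply PTf.snd
  with_reducible apply PTf.snd
  with_reducible apply PTf.fst
  with_reducible apply PTf.id
  with_reducible apply PTf.snd
  with_reducible apply PTf.snd
  with_reducible apply PTf.id
  with_reducible apply PTf.pair
  with_reducible apply PTf.snd
  with_reducible apply PTf.fst
  with_reducible apply PTf.id
  with_reducible apply PTf.snd
  with_reducible apply PTf.id

theorem ptf_vs : PTf 𝒜 (fun _ (x : List Bool × ℕ × ℕ) => vs x.2.2 (look x.1 x.2.1 x.2.2)) := by
  refine (ptf_vs'.comp (ptf_pts.pair PTf.id.snd.snd)).congr fun A _ x => ?_
  unfold vs
  rfl

theorem ptf_outBits : PTf 𝒜 (fun _ (l : List Code) => outBits l) := by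
  unfold outBits adjc
  with_reducible apply PTf.flatMap
  with_reducible apply PTf.id
  with_reducible apply PTf.map
  with_reducible apply PTf.fst
  with_reducible apply PTf.id
  with_reducible apply PTf.bor
  with_reducible apply PTf.band
  with_reducible apply PTf.band
  with_reducible apply PTf.beq
  with_reducible apply PTf.fst
  with_reducible apply PTf.snd
  with_reducible apply PTf.fst
  with_reducible apply PTf.id
  with_reducible apply PTf.fst
  with_reducible apply PTf.snd
  with_reducible apply PTf.id
  with_reducible apply PTf.bnot
  with_reducible apply PTf.beq
  with_reducible apply PTf.snd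
  with_reducible apply PTf.snd
  with_reducible apply PTf.fst
  with_reducible apply PTf.id
  with_reducible apply PTf.snd
  with_reducible apply PTf.snd
  with_reducible apply PTf.id
  with_reducible apply PTf.bor
  with_reducible apply PTf.beq
  with_reducible apply PTf.snd
  with_reducible apply PTf.snd
  with_reducible apply PTf.fst
  with_reducible apply PTf.id
  with_reducible apply PTf.fst
  with_reducible apply PTf.snd
  with_reducible apply PTf.fst
  with_reducible apply PTf.id
  with_reducible apply PTf.beq
  with_reducible apply PTf.snd
  with_reducible apply PTf.snd
  with_reducible apply PTf.id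
  with_reducible apply PTf.fst
  with_reducible apply PTf.snd
  with_reducible apply PTf.fst
  with_reducible apply PTf.id
  with_reducible apply PTf.band
  with_reducible apply PTf.bnot
  with_reducible apply PTf.beq
  with_reducible apply PTf.fst
  with_reducible apply PTf.snd
  with_reducible apply PTf.fst
  with_reducible apply PTf.id
  with_reducible apply PTf.fst
  with_reducible apply PTf.snd
  with_reducible apply PTf.id
  with_reducible apply PTf.bor
  with_reducible apply PTf.band
  with_reducible apply PTf.beq
  with_reducible apply PTf.snd
  with_reducible apply PTf.snd
  with_reducible apply PTf.fst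
  with_reducible apply PTf.id
  with_reducible apply PTf.fst
  with_reducible apply PTf.snd
  with_reducible apply PTf.id
  with_reducible apply PTf.beq
  with_reducible apply PTf.snd
  with_reducible apply PTf.snd
  with_reducible apply PTf.id
  with_reducible apply PTf.fst
  with_reducible apply PTf.snd
  with_reducible apply PTf.fst
  with_reducible apply PTf.id
  with_reducible apply PTf.band
  with_reducible apply PTf.beq
  with_reducible apply PTf.snd
  with_reducible apply PTf.snd
  with_reducible apply PTf.fst
  with_reducible apply PTf.id
  with_reducible apply PTf.snd
  with_reducible apply PTf.snd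
  with_reducible apply PTf.id
  with_reducible apply PTf.beq
  with_reducible apply PTf.fst
  with_reducible apply PTf.snd
  with_reducible apply PTf.snd
  with_reducible apply PTf.fst
  with_reducible apply PTf.id
  with_reducible apply PTf.snd
  with_reducible apply PTf.snd
  with_reducible apply PTf.snd
  with_reducible apply PTf.fst
  with_reducible apply PTf.id

theorem ptf_comb : PTf 𝒜 (fun _ (x : List Code × List Code) =>
    List.replicate x.1.length true ++ false :: (List.replicate x.2.length true ++ false ::
      (outBits x.1 ++ outBits x.2))) := by
  have h1 : PTf 𝒜 (fun _ (x : List Code × List Code) => outBits x.1) :=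
    ptf_outBits.comp PTf.id.fst
  have h2 : PTf 𝒜 (fun _ (x : List Code × List Code) => outBits x.2) :=
    ptf_outBits.comp PTf.id.snd
  with_reducible apply PTf.append
  with_reducible apply PTf.replicate
  with_reducible apply PTf.length
  with_reducible apply PTf.fst
  with_reducible apply PTf.id
  with_reducible apply PTf.const
  with_reducible apply PTf.cons
  with_reducible apply PTf.const
  with_reducible apply PTf.append
  with_reducible apply PTf.replicate
  with_reducible apply PTf.length
  with_reducible apply PTf.snd
  with_reducible apply PTf.id
  with_reducible apply PTf.const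
  with_reducible apply PTf.cons
  with_reducible apply PTf.const
  with_reducible apply PTf.append
  assumption
  assumption

/-- first number of vertices, second number of vertices, matrices -/
def header (w : List Bool) : ℕ × ℕ × List Bool :=
  (hd w, hd (w.drop (hd w + 1)), (w.drop (hd w + 1)).drop (hd (w.drop (hd w + 1)) + 1))

theorem ptf_header : PTf 𝒜 (fun _ (w : List Bool) => header w) := by
  unfold header
  have h1 : PTf 𝒜 (fun _ (w : List Bool) => hd w) := ptf_hd
  have h2 : PTf 𝒜 (fun _ (w : List Bool) => w.drop (hd w + 1)) := by
    with_reducible apply PTf.drop
    with_reducible apply PTf.id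
    with_reducible apply PTf.add
    assumption
    with_reducible apply PTf.const
  have h3 : PTf 𝒜 (fun _ (w : List Bool) => hd (w.drop (hd w + 1))) := ptf_hd.comp h2
  with_reducible apply PTf.pair
  assumption
  with_reducible apply PTf.pair
  assumption
  with_reducible apply PTf.drop
  assumption
  with_reducible apply PTf.add
  assumption
  with_reducible apply PTf.const

/-- the lists of the vertices of the two output graphs -/
def lists (x : ℕ × ℕ × List Bool) : List Code × List Code :=
  (vs x.1 (look x.2.2 0 x.1), vs x.2.1 (look x.2.2 (x.1 * x.1) x.2.1))

theorem ptf_lists : PTf 𝒜 (fun _ (x : ℕ × ℕ × List Bool) => lists x) := by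
  unfold lists
  refine PTf.pair ?_ ?_
  · have h : PTf 𝒜 (fun _ (x : ℕ × ℕ × List Bool) => (x.2.2, 0, x.1)) := by
      with_reducible apply PTf.pair
      with_reducible apply PTf.snd
      with_reducible apply PTf.snd
      with_reducible apply PTf.id
      with_reducible apply PTf.pair
      with_reducible apply PTf.const
      with_reducible apply PTf.fst
      with_reducible apply PTf.id
    refine (ptf_vs.comp h).congr fun A _ x => ?_
    rfl
  · have h : PTf 𝒜 (fun _ (x : ℕ × ℕ × List Bool) => (x.2.2, x.1 * x.1, x.2.1)) := by
      with_reducible apply PTf.pair
      with_reducible apply PTf.snd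
      with_reducible apply PTf.snd
      with_reducible apply PTf.id
      with_reducible apply PTf.pair
      with_reducible apply PTf.mul
      with_reducible apply PTf.fst
      with_reducible apply PTf.id
      with_reducible apply PTf.fst
      with_reducible apply PTf.id
      with_reducible apply PTf.fst
      with_reducible apply PTf.snd
      with_reducible apply PTf.id
    refine (ptf_vs.comp h).congr fun A _ x => ?_
    rfl

theorem ptf_red : PTf 𝒜 (fun _ (w : List Bool) => red w) :=
  (ptf_comb.comp (ptf_lists.comp ptf_header)).congr fun _ _ _ => rfl

end PT

end Pool.Agent.LibGeo
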