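import Pool.Agent.LibGeo.Conn

/-!
The linear space of a graph `Γ` with a set `low` of marked vertices: the points are the edges of
`Γ`, the edges at a marked vertex form a line, and two edges without a common marked vertex form a
line with two points.
-/

set_option autoImplicit false

namespace Pool.Agent.LibGeo

open SimpleGraph

variable {U V : Type}

/-- two edges with a common marked vertex -/
def Share (low : U → Prop) (p q : Sym2 U) : Prop := ∃ u, low u ∧ u ∈ p ∧ u ∈ q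

/-- names of lines -/
abbrev Line (U : Type) : Type := U ⊕ Sym2 (Sym2 U)

/-- The points `(p, none)` and the flags `(p, some l)` of the space. -/
def SS (Γ : SimpleGraph U) (low : U → Prop) : Set (Sym2 U × Option (Line U)) :=
  {x | x.1 ∈ Γ.edgeSet ∧ (x.2 = none ∨ (∃ u, low u ∧ u ∈ x.1 ∧ x.2 = some (Sum.inl u)) ∨
    (∃ q ∈ Γ.edgeSet, q ≠ x.1 ∧ ¬ Share low x.1 q ∧ x.2 = some (Sum.inr s(x.1, q))))}

/-- the point of a vertex -/
def sp {Γ : SimpleGraph U} {low : U → Prop} (x : SS Γ low) : Sym2 U := x.1.1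
/-- the line of a vertex -/
def sl {Γ : SimpleGraph U} {low : U → Prop} (x : SS Γ low) : Option (Line U) := x.1.2

variable {Γ : SimpleGraph U} {low : U → Prop}

theorem share_comm {p q : Sym2 U} : Share low p q ↔ Share low q p := by
  unfold Share
  constructor <;> rintro ⟨u, h1, h2, h3⟩ <;> exact ⟨u, h1, h3, h2⟩

/-- two different edges have at most one common vertex -/
theorem common_unique {p q : Sym2 U} (hpq : p ≠ q) {u v : U} (h1 : u ∈ p) (h2 : u ∈ q)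
    (h3 : v ∈ p) (h4 : v ∈ q) : u = v := by
  by_contra h
  exact hpq (((Sym2.mem_and_mem_iff h).1 ⟨h1, h3⟩).trans ((Sym2.mem_and_mem_iff h).1 ⟨h2, h4⟩).symm)

theorem two_flags {p q : Sym2 U} (hpq : p ≠ q) {l : Option (Line U)} (hl : l ≠ none)
    (h1 : (p, l) ∈ SS Γ low) (h2 : (q, l) ∈ SS Γ low) :
    (∃ u, low u ∧ u ∈ p ∧ u ∈ q ∧ l = some (Sum.inl u)) ∨
      (¬ Share low p q ∧ l = some (Sum.inr s(p, q))) := by
  obtain ⟨_, h1 | ⟨u, h1, h1', h1''⟩ | ⟨r, h1, h1', h1'', h1'''⟩⟩ := h1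
  · exact absurd h1 hl
  · obtain ⟨_, h2 | ⟨v, h2, h2', h2''⟩ | ⟨s, h2, h2', h2'', h2'''⟩⟩ := h2
    · exact absurd h2 hl
    · simp only at h1'' h2'' h1' h2'
      rw [h1''] at h2''
      have : u = v := by simpa using h2''
      subst this
      exact Or.inl ⟨u, h1, h1', h2', h1''⟩
    · simp only at h1'' h2'''
      rw [h1''] at h2'''
      simp at h2'''
  · obtain ⟨_, h2 | ⟨v, h2, h2', h2''⟩ | ⟨s, h2, h2', h2'', h2'''⟩⟩ := h2
    · exact absurd h2 hl
    · simp only at h1''' h2''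
      rw [h1'''] at h2''
      simp at h2''
    · simp only at h1''' h2''' h1'' 
      have h3 := h2'''
      rw [h1'''] at h3
      have h4 : s(p, r) = s(q, s) := by simpa using h3
      rw [Sym2.eq_iff] at h4
      rcases h4 with ⟨h4, _⟩ | ⟨_, h4⟩
      · exact absurd h4 hpq
      · subst h4
        exact Or.inr ⟨h1'', h1'''⟩

theorem linStr_SS : LinStr (sp (Γ := Γ) (low := low)) sl where
  inj w w' h1 h2 := Subtype.ext (Prod.ext h1 h2)
  hub w := ⟨⟨(w.1.1, none), w.2.1, Or.inl rfl⟩, rfl, rfl⟩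
  join w w' hne := by
    by_cases hs : Share low w.1.1 w'.1.1
    · obtain ⟨u, h1, h2, h3⟩ := hs
      exact ⟨⟨(w.1.1, some (Sum.inl u)), w.2.1, Or.inr (Or.inl ⟨u, h1, h2, rfl⟩)⟩,
        ⟨(w'.1.1, some (Sum.inl u)), w'.2.1, Or.inr (Or.inl ⟨u, h1, h3, rfl⟩)⟩, rfl, rfl, rfl,
        by simp [sl]⟩
    · refine ⟨⟨(w.1.1, some (Sum.inr s(w.1.1, w'.1.1))), w.2.1,
        Or.inr (Or.inr ⟨w'.1.1, w'.2.1, fun h => hne h.symm, hs, rfl⟩)⟩,
        ⟨(w'.1.1, some (Sum.inr s(w'.1.1, w.1.1))), w'.2.1,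
        Or.inr (Or.inr ⟨w.1.1, w.2.1, hne, fun h => hs (share_comm.1 h), rfl⟩)⟩, rfl, rfl, ?_, ?_⟩
      · simp [sl, Sym2.eq_swap]
      · simp [sl]
  uniq f g f' g' h1 h2 h3 h4 h5 h6 h7 := by
    obtain ⟨⟨p, l⟩, hf⟩ := f
    obtain ⟨⟨q, l2⟩, hg⟩ := g
    obtain ⟨⟨p', l'⟩, hf'⟩ := f'
    obtain ⟨⟨q', l2'⟩, hg'⟩ := g'
    simp only [sp, sl] at h1 h2 h3 h4 h5 h6 h7 ⊢
    subst h1 h2 h4 h6
    rcases two_flags h3 h5 hf hg with ⟨u, a1, a2, a3, a4⟩ | ⟨a1, a2⟩
    · rcases two_flags h3 h7 hf' hg' with ⟨v, b1, b2, b3, b4⟩ | ⟨b1, b2⟩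
      · rw [a4, b4, common_unique h3 a2 a3 b2 b3]
      · exact absurd ⟨u, a1, a2, a3⟩ b1
    · rcases two_flags h3 h7 hf' hg' with ⟨v, b1, b2, b3, b4⟩ | ⟨b1, b2⟩
      · exact absurd ⟨v, b1, b2, b3⟩ a1
      · rw [a2, b2]

/-- Conditions on `Γ`: marked vertices have degree at least three, and there is a triangle of
unmarked vertices. -/
structure Good (Γ : SimpleGraph U) (low : U → Prop) : Prop where
  deg : ∀ u, low u → ∃ a b c, a ≠ b ∧ a ≠ c ∧ b ≠ c ∧ Γ.Adj u a ∧ Γ.Adj u b ∧ Γ.Adj u c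
  tri : ∃ a b c, ¬ low a ∧ ¬ low b ∧ ¬ low c ∧ Γ.Adj a b ∧ Γ.Adj a c ∧ Γ.Adj b c

theorem edge_ne {u a b : U} (h : a ≠ b) : s(u, a) ≠ s(u, b) := by
  intro h'
  rw [Sym2.eq_iff] at h'
  rcases h' with ⟨_, h'⟩ | ⟨h1, h2⟩
  · exact h h'
  · exact h (h2.trans h1)

/-- a flag of the line of a marked vertex -/
def bigFlag (u a : U) (hu : low u) (ha : Γ.Adj u a) : SS Γ low :=
  ⟨(s(u, a), some (Sum.inl u)), ha, Or.inr (Or.inl ⟨u, hu, Sym2.mem_mk_left u a, rfl⟩)⟩

theorem inTri_SS (hG : Good Γ low) (w : SS Γ low) :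
    InTri (gr sp sl) w ↔ ∃ u, low u ∧ sl w = some (Sum.inl u) := by
  rw [inTri_iff]
  constructor
  · rintro ⟨h0, a, b, h1, h2, h3, h4, h5⟩
    obtain ⟨⟨p, l⟩, hw⟩ := w
    obtain ⟨⟨q, l'⟩, ha⟩ := a
    obtain ⟨⟨r, l''⟩, hb⟩ := b
    simp only [sp, sl] at h0 h1 h2 h3 h4 h5 ⊢
    subst h4 h5
    rcases two_flags h1 h0 ha hw with ⟨u, a1, a2, a3, a4⟩ | ⟨a1, a2⟩
    · exact ⟨u, a1, a4⟩
    · rcases two_flags h2 h0 hb hw with ⟨u, b1, b2, b3, b4⟩ | ⟨b1, b2⟩
      · exact ⟨u, b1, b4⟩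
      · rw [a2] at b2
        have : s(q, p) = s(r, p) := by simpa using b2
        rw [Sym2.eq_iff] at this
        rcases this with ⟨h, _⟩ | ⟨h, _⟩
        · exact absurd h h3
        · exact absurd h h1
  · rintro ⟨u, hu, hw⟩
    refine ⟨by rw [hw]; simp, ?_⟩
    obtain ⟨a, b, c, hab, hac, hbc, ha, hb, hc⟩ := hG.deg u hu
    have e1 := edge_ne (u := u) hab
    have e2 := edge_ne (u := u) hac
    have e3 := edge_ne (u := u) hbc
    by_cases h1 : s(u, a) = sp w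
    · exact ⟨bigFlag u b hu hb, bigFlag u c hu hc, fun h => e1 (h1.trans h.symm),
        fun h => e2 (h1.trans h.symm), e3, hw.symm, hw.symm⟩
    · by_cases h2 : s(u, b) = sp w
      · exact ⟨bigFlag u a hu ha, bigFlag u c hu hc, h1, fun h => e3 (h2.trans h.symm), e2,
          hw.symm, hw.symm⟩
      · exact ⟨bigFlag u a hu ha, bigFlag u b hu hb, h1, h2, e1, hw.symm, hw.symm⟩

theorem on_inl {a : Sym2 U} {u : U} (h : On (sp (Γ := Γ) (low := low)) sl a (some (Sum.inl u))) :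
    low u ∧ u ∈ a := by
  obtain ⟨⟨⟨p, l⟩, hw⟩, rfl, h2⟩ := h
  simp only [sl] at h2
  subst h2
  obtain ⟨_, h | ⟨v, h1, h1', h1''⟩ | ⟨q, h1, h1', h1'', h1'''⟩⟩ := hw
  · simp at h
  · simp only [Option.some.injEq, Sum.inl.injEq] at h1''
    subst h1''
    exact ⟨h1, h1'⟩
  · simp at h1'''

theorem on_inr {a : Sym2 U} {z : Sym2 (Sym2 U)}
    (h : On (sp (Γ := Γ) (low := low)) sl a (some (Sum.inr z))) : a ∈ z := by
  obtain ⟨⟨⟨p, l⟩, hw⟩, rfl, h2⟩ := h
  simp only [sl] at h2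
  subst h2
  obtain ⟨_, h | ⟨v, h1, h1', h1''⟩ | ⟨q, h1, h1', h1'', h1'''⟩⟩ := hw
  · simp at h
  · simp at h1''
  · simp only [Option.some.injEq, Sum.inr.injEq] at h1'''
    subst h1'''
    exact Sym2.mem_mk_left _ _

theorem nondeg_SS (hG : Good Γ low) : Nondeg (sp (Γ := Γ) (low := low)) sl where
  two f hf := by
    obtain ⟨⟨p, l⟩, hw⟩ := f
    simp only [sl, sp] at hf ⊢
    obtain ⟨hp, h | ⟨u, h1, h1', h1''⟩ | ⟨q, h1, h1', h1'', h1'''⟩⟩ := id hw
    · exact absurd h hf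
    · simp only at h1' h1''
      obtain ⟨a, b, c, hab, hac, hbc, ha, hb, hc⟩ := hG.deg u h1
      have e1 := edge_ne (u := u) hab
      by_cases h2 : s(u, a) = p
      · exact ⟨bigFlag u b h1 hb, fun h => e1 (h2.trans (Eq.symm h)), h1''.symm⟩
      · exact ⟨bigFlag u a h1 ha, h2, h1''.symm⟩
    · simp only at h1' h1'' h1''' hp
      refine ⟨⟨(q, some (Sum.inr s(q, p))), h1, Or.inr (Or.inr ⟨p, hp, fun h => h1' h.symm,
        fun h => h1'' (share_comm.1 h), rfl⟩)⟩, h1', ?_⟩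
      rw [h1''']
      simp [Sym2.eq_swap]
  off l hl := by
    obtain ⟨a, b, c, na, nb, nc, hab, hac, hbc⟩ := hG.tri
    have e1 : s(a, b) ≠ s(a, c) := edge_ne hbc.ne
    have e2 : s(a, b) ≠ s(b, c) := by
      rw [Sym2.eq_swap]
      exact edge_ne hac.ne
    have e3 : s(a, c) ≠ s(b, c) := by
      rw [Sym2.eq_swap, Sym2.eq_swap (a := b)]
      exact edge_ne hab.ne
    obtain _ | (u | z) := l
    · exact absurd rfl hl
    · refine ⟨⟨(s(a, b), none), hab, Or.inl rfl⟩, rfl, fun h => ?_⟩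
      obtain ⟨h1, h2⟩ := on_inl h
      simp only [sp, Sym2.mem_iff] at h2
      rcases h2 with rfl | rfl
      · exact na h1
      · exact nb h1
    · by_contra hcon
      push Not at hcon
      have m1 := on_inr (hcon ⟨(s(a, b), none), hab, Or.inl rfl⟩ rfl)
      have m2 := on_inr (hcon ⟨(s(a, c), none), hac, Or.inl rfl⟩ rfl)
      have m3 := on_inr (hcon ⟨(s(b, c), none), hbc, Or.inl rfl⟩ rfl)
      simp only [sp] at m1 m2 m3
      have h1 := (Sym2.mem_and_mem_iff e1).1 ⟨m1, m2⟩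
      rw [h1, Sym2.mem_iff] at m3
      rcases m3 with m3 | m3
      · exact e2 m3.symm
      · exact e3 m3.symm
  three := by
    obtain ⟨a, b, c, na, nb, nc, hab, hac, hbc⟩ := hG.tri
    have e1 : s(a, b) ≠ s(a, c) := edge_ne hbc.ne
    have e2 : s(a, b) ≠ s(b, c) := by
      rw [Sym2.eq_swap]
      exact edge_ne hac.ne
    have e3 : s(a, c) ≠ s(b, c) := by
      rw [Sym2.eq_swap, Sym2.eq_swap (a := b)]
      exact edge_ne hab.ne
    refine ⟨⟨(s(a, b), none), hab, Or.inl rfl⟩, ⟨(s(a, c), none), hac, Or.inl rfl⟩,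
      ⟨(s(b, c), none), hbc, Or.inl rfl⟩, ?_, ?_, ?_⟩
    · exact fun h => e1 (congrArg sp h)
    · exact fun h => e2 (congrArg sp h)
    · exact fun h => e3 (congrArg sp h)

/-- `X` is the graph on the marked vertices -/
structure Pres (X : SimpleGraph V) (Γ : SimpleGraph U) (low : U → Prop) (ι : V → U) : Prop where
  inj : Function.Injective ι
  range : ∀ u, low u ↔ ∃ v, ι v = u
  adj : ∀ u v, X.Adj u v ↔ Γ.Adj (ι u) (ι v)

theorem repr_SS {X : SimpleGraph V} {ι : V → U} (hG : Good Γ low) (hX : Pres X Γ low ι) :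
    Repr (sp (Γ := Γ) (low := low)) sl X (fun v => Sum.inl (ι v)) where
  inj := by
    intro u v h
    exact hX.inj (by simpa using h)
  tri w := by
    rw [inTri_SS hG]
    constructor
    · rintro ⟨u, hu, h⟩
      obtain ⟨v, rfl⟩ := (hX.range u).1 hu
      exact ⟨v, h⟩
    · rintro ⟨v, h⟩
      exact ⟨ι v, (hX.range _).2 ⟨v, rfl⟩, h⟩
  ex v := by
    have hv := (hX.range _).2 ⟨v, rfl⟩
    obtain ⟨a, _, _, _, _, _, ha, _⟩ := hG.deg (ι v) hv
    exact ⟨bigFlag (ι v) a hv ha, rfl⟩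
  meet u v huv := by
    have hu := (hX.range _).2 ⟨u, rfl⟩
    have hv := (hX.range _).2 ⟨v, rfl⟩
    constructor
    · intro h
      have h' := (hX.adj u v).1 h
      refine ⟨bigFlag (ι u) (ι v) hu h', bigFlag (ι v) (ι u) hv h'.symm, rfl, rfl, ?_⟩
      simp [sp, bigFlag, Sym2.eq_swap]
    · rintro ⟨x, y, hx, hy, hxy⟩
      have h1 := on_inl ⟨x, rfl, hx⟩
      have h2 := on_inl ⟨y, rfl, hy⟩
      rw [← hxy] at h2
      have hne : ι u ≠ ι v := fun h => huv (hX.inj h)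
      have h3 := (Sym2.mem_and_mem_iff hne).1 ⟨h1.2, h2.2⟩
      have h4 : sp x ∈ Γ.edgeSet := x.2.1
      rw [h3] at h4
      exact (hX.adj u v).2 h4

/-! ### Functoriality -/

/-- the action of a bijection on the names of the vertices -/
def tr {U' : Type} (θ : U → U') (x : Sym2 U × Option (Line U)) : Sym2 U' × Option (Line U') :=
  (x.1.map θ, x.2.map (Sum.map θ (Sym2.map (Sym2.map θ))))

theorem tr_tr {U' U'' : Type} (θ : U → U') (θ' : U' → U'') (x) : tr θ' (tr θ x) = tr (θ' ∘ θ) x := by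
  obtain ⟨p, l⟩ := x
  simp only [tr, Sym2.map_map, Option.map_map, Sum.map_comp_map]
  congr 2
  congr 1
  rw [← Sym2.map_comp, ← Sym2.map_comp]

theorem tr_id (x : Sym2 U × Option (Line U)) : tr id x = x := by
  obtain ⟨p, l⟩ := x
  simp [tr]

theorem tr_mem {U' : Type} {Γ' : SimpleGraph U'} {low' : U' → Prop} (θ : Γ ≃g Γ')
    (hl : ∀ u, low u ↔ low' (θ u)) {x : Sym2 U × Option (Line U)} (hx : x ∈ SS Γ low) :
    tr θ x ∈ SS Γ' low' := by
  obtain ⟨p, l⟩ := x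
  have hedge : ∀ q ∈ Γ.edgeSet, q.map θ ∈ Γ'.edgeSet := by
    intro q hq
    induction q with | _ a b
    exact θ.map_rel_iff.2 hq
  obtain ⟨hp, h⟩ := hx
  refine ⟨hedge _ hp, ?_⟩
  rcases h with h | ⟨u, h1, h2, h3⟩ | ⟨q, h1, h2, h3, h4⟩
  · left
    simp only at h
    simp [tr, h]
  · right; left
    simp only at h2 h3
    refine ⟨θ u, (hl u).1 h1, ?_, ?_⟩
    · exact Sym2.mem_map.2 ⟨u, h2, rfl⟩
    · simp [tr, h3]
  · right; right
    simp only at h2 h3 h4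
    refine ⟨q.map θ, hedge q h1, ?_, ?_, ?_⟩
    · intro h
      exact h2 (Sym2.map.injective θ.injective h)
    · rintro ⟨u', a1, a2, a3⟩
      obtain ⟨u, b1, rfl⟩ := Sym2.mem_map.1 a2
      obtain ⟨v, b2, b3⟩ := Sym2.mem_map.1 a3
      have : v = u := θ.injective b3
      subst this
      exact h3 ⟨v, (hl v).2 a1, b1, b2⟩
    · simp [tr, h4]

theorem line_map_injective {U' : Type} {θ : U → U'} (hθ : Function.Injective θ) :
    Function.Injective (Option.map (Sum.map θ (Sym2.map (Sym2.map θ)))) :=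
  Option.map_injective (hθ.sumMap (Sym2.map.injective (Sym2.map.injective hθ)))

/-- an isomorphism of graphs with marked vertices gives an isomorphism of the graphs of points
and flags -/
def grIso {U' : Type} {Γ' : SimpleGraph U'} {low' : U' → Prop} (θ : Γ ≃g Γ')
    (hl : ∀ u, low u ↔ low' (θ u)) :
    gr (sp (Γ := Γ) (low := low)) sl ≃g gr (sp (Γ := Γ') (low := low')) sl where
  toFun x := ⟨tr θ x.1, tr_mem θ hl x.2⟩
  invFun x := ⟨tr θ.symm x.1, tr_mem θ.symm (fun u => by rw [hl (θ.symm u)]; simp) x.2⟩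
  left_inv x := by
    apply Subtype.ext
    show tr θ.symm (tr θ x.1) = x.1
    rw [tr_tr]
    have : (θ.symm ∘ θ : U → U) = id := by funext u; simp
    rw [this, tr_id]
  right_inv x := by
    apply Subtype.ext
    show tr θ (tr θ.symm x.1) = x.1
    rw [tr_tr]
    have : (θ ∘ θ.symm : U' → U') = id := by funext u; simp
    rw [this, tr_id]
  map_rel_iff' := by
    intro x y
    have e1 : ∀ x y : SS Γ low, (sp (⟨tr θ x.1, tr_mem θ hl x.2⟩ : SS Γ' low') =
        sp (⟨tr θ y.1, tr_mem θ hl y.2⟩ : SS Γ' low')) ↔ sp x = sp y := by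
      intro x y
      exact (Sym2.map.injective θ.injective).eq_iff
    have e2 : ∀ x y : SS Γ low, (sl (⟨tr θ x.1, tr_mem θ hl x.2⟩ : SS Γ' low') =
        sl (⟨tr θ y.1, tr_mem θ hl y.2⟩ : SS Γ' low')) ↔ sl x = sl y := by
      intro x y
      exact (line_map_injective θ.injective).eq_iff
    have e3 : ∀ x : SS Γ low, (sl (⟨tr θ x.1, tr_mem θ hl x.2⟩ : SS Γ' low') = none) ↔
        sl x = none := by
      intro x
      exact Option.map_eq_none_iff
    simp only [gr, Equiv.coe_fn_mk, e1, e2, e3, ne_eq]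

end Pool.Agent.LibGeo
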