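import Pool.Agent.LibGeo.Lang

/-!
Whether a graph is geodetic can be decided in polynomial time: count the walks of given length
between two vertices, up to two.
-/

set_option autoImplicit false

namespace Pool.Agent.LibGeo

open SimpleGraph Pool.Agent.LibComplexity Function Enc

/-- number of walks of length `k` from `i` to `j`, at most two -/
def cw (n : ℕ) (a : ℕ → ℕ → Bool) : ℕ → ℕ → ℕ → ℕ
  | 0, i, j => if i = j then 1 else 0
  | k + 1, i, j => min 2 ((List.range n).map fun w => if a i w = true then cw n a k w j else 0).sum

/-- the first nonzero value of `cw` -/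
def fs (n : ℕ) (a : ℕ → ℕ → Bool) : ℕ → ℕ → ℕ → ℕ
  | 0, i, j => if i = j then 1 else 0
  | k + 1, i, j => if fs n a k i j = 0 then cw n a (k + 1) i j else fs n a k i j

theorem cw_le (n : ℕ) (a : ℕ → ℕ → Bool) (k i j : ℕ) : cw n a k i j ≤ 2 := by
  cases k with
  | zero => simp only [cw]; split_ifs <;> omega
  | succ k => simp only [cw]; omega

section walks

variable {n : ℕ} {a : ℕ → ℕ → Bool} {G : SimpleGraph (Fin n)}

/-- `c` counts, up to two, the elements with property `P` -/
def Counts {α : Type} (c : ℕ) (P : α → Prop) : Prop :=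
  (c = 0 ↔ ∀ x, ¬ P x) ∧ (c = 1 ↔ ∃! x, P x)

theorem sum_eq_zero_iff (l : List ℕ) (f : ℕ → ℕ) :
    (l.map f).sum = 0 ↔ ∀ x ∈ l, f x = 0 := by
  induction l with
  | nil => simp
  | cons x l ih => simp [ih]

theorem sum_eq_one_iff (l : List ℕ) (hl : l.Nodup) (f : ℕ → ℕ) :
    (l.map f).sum = 1 ↔ ∃ x ∈ l, f x = 1 ∧ ∀ y ∈ l, y ≠ x → f y = 0 := by
  induction l with
  | nil => simp
  | cons x l ih =>
    rw [List.nodup_cons] at hl
    rw [List.map_cons, List.sum_cons]
    constructor
    · intro h
      rcases Nat.eq_zero_or_pos (f x) with h0 | h0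
      · obtain ⟨y, h1, h2, h3⟩ := (ih hl.2).1 (by omega)
        refine ⟨y, List.mem_cons_of_mem _ h1, h2, fun z hz hzy => ?_⟩
        rcases List.mem_cons.1 hz with rfl | hz
        · exact h0
        · exact h3 z hz hzy
      · have h1 : (l.map f).sum = 0 := by omega
        refine ⟨x, List.mem_cons_self, by omega, fun z hz hzx => ?_⟩
        rcases List.mem_cons.1 hz with rfl | hz
        · exact absurd rfl hzx
        · exact (sum_eq_zero_iff l f).1 h1 z hz
    · rintro ⟨y, h1, h2, h3⟩
      rcases List.mem_cons.1 h1 with rfl | h1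
      · have : (l.map f).sum = 0 := (sum_eq_zero_iff l f).2 fun z hz =>
          h3 z (List.mem_cons_of_mem _ hz) (by rintro rfl; exact hl.1 hz)
        omega
      · have h4 : f x = 0 := h3 x List.mem_cons_self (by rintro rfl; exact hl.1 h1)
        have := (ih hl.2).2 ⟨y, h1, h2, fun z hz => h3 z (List.mem_cons_of_mem _ hz)⟩
        omega

theorem cw_counts (ha : Agree a G) (k : ℕ) : ∀ i j : Fin n,
    Counts (cw n a k i j) (fun p : G.Walk i j => p.length = k) := by
  induction k with
  | zero =>
    intro i j
    unfold Counts cw
    by_cases h : i = j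
    · subst h
      simp only [if_true]
      constructor
      · constructor
        · intro h; omega
        · intro h
          exact absurd rfl (h Walk.nil)
      · constructor
        · intro _
          refine ⟨Walk.nil, rfl, fun p hp => ?_⟩
          cases p with
          | nil => rfl
          | cons => simp at hp
        · intro _; trivial
    · have h' : (i : ℕ) ≠ j := fun hh => h (Fin.ext hh)
      rw [if_neg h']
      constructor
      · constructor
        · intro _ p hp
          exact h (Walk.eq_of_length_eq_zero hp)
        · intro _; rfl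
      · constructor
        · intro h; omega
        · rintro ⟨p, hp, _⟩
          exact absurd (Walk.eq_of_length_eq_zero hp) h
  | succ k ih =>
    intro i j
    have key0 : (∀ w : Fin n, G.Adj i w → cw n a k w j = 0) ↔
        ∀ p : G.Walk i j, ¬ p.length = k + 1 := by
      constructor
      · intro h p hp
        cases p with
        | nil => simp at hp
        | @cons _ w _ hw p =>
          exact ((ih w j).1.1 (h w hw)) p (by simpa using hp)
      · intro h w hw
        rw [(ih w j).1]
        intro p hp
        exact h (Walk.cons hw p) (by simp [hp])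
    have tr0 : ((List.range n).map fun w => if a i w = true then cw n a k w j else 0).sum = 0 ↔
        (∀ w : Fin n, G.Adj i w → cw n a k w j = 0) := by
      rw [sum_eq_zero_iff]
      constructor
      · intro h w hw
        have := h w (List.mem_range.2 w.2)
        rwa [if_pos ((ha i w).2 hw)] at this
      · intro h w hw
        rw [List.mem_range] at hw
        split_ifs with h1
        · exact h ⟨w, hw⟩ ((ha i ⟨w, hw⟩).1 h1)
        · rfl
    have key1 : (∃ w : Fin n, G.Adj i w ∧ cw n a k w j = 1 ∧
        ∀ w' : Fin n, G.Adj i w' → w' ≠ w → cw n a k w' j = 0) ↔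
        ∃! p : G.Walk i j, p.length = k + 1 := by
      constructor
      · rintro ⟨w, h1, h2, h3⟩
        obtain ⟨p, hp, hp'⟩ := (ih w j).2.1 h2
        refine ⟨Walk.cons h1 p, by simp [hp], fun q hq => ?_⟩
        cases q with
        | nil => simp at hq
        | @cons _ w' _ hw q =>
          have hq' : q.length = k := by simpa using hq
          by_cases hww : w' = w
          · subst hww
            rw [hp' q hq']
          · exact absurd hq' ((ih w' j).1.1 (h3 w' hw hww) q)
      · rintro ⟨p, hp, hp'⟩
        cases p with
        | nil => simp at hp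
        | @cons _ w _ hw p =>
          have hpl : p.length = k := by simpa using hp
          refine ⟨w, hw, (ih w j).2.2 ⟨p, hpl, fun q hq => ?_⟩, fun w' hw' hne => ?_⟩
          · have := hp' (Walk.cons hw q) (by simp [hq])
            simpa using this
          · rw [(ih w' j).1]
            intro q hq
            have := hp' (Walk.cons hw' q) (by simp [hq])
            have h5 := congrArg (fun p : G.Walk i j => p.getVert 1) this
            simp at h5
            exact hne h5
    have tr1 : ((List.range n).map fun w => if a i w = true then cw n a k w j else 0).sum = 1 ↔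
        (∃ w : Fin n, G.Adj i w ∧ cw n a k w j = 1 ∧
        ∀ w' : Fin n, G.Adj i w' → w' ≠ w → cw n a k w' j = 0) := by
      rw [sum_eq_one_iff _ List.nodup_range]
      constructor
      · rintro ⟨w, hw, h1, h2⟩
        rw [List.mem_range] at hw
        have h3 : a i w = true := by
          by_contra hh
          rw [if_neg hh] at h1
          omega
        rw [if_pos h3] at h1
        refine ⟨⟨w, hw⟩, (ha i ⟨w, hw⟩).1 h3, h1, fun w' hw' hne => ?_⟩
        have := h2 w' (List.mem_range.2 w'.2) (fun hh => hne (Fin.ext hh))
        rwa [if_pos ((ha i w').2 hw')] at this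
      · rintro ⟨w, h1, h2, h3⟩
        refine ⟨w, List.mem_range.2 w.2, ?_, fun y hy hne => ?_⟩
        · rw [if_pos ((ha i w).2 h1)]
          exact h2
        · rw [List.mem_range] at hy
          split_ifs with h4
          · exact h3 ⟨y, hy⟩ ((ha i ⟨y, hy⟩).1 h4) (fun hh => hne (congrArg Fin.val hh))
          · rfl
    unfold Counts cw
    constructor
    · rw [← key0, ← tr0]
      omega
    · rw [← key1, ← tr1]
      omega

theorem fs_zero_iff (n : ℕ) (a : ℕ → ℕ → Bool) (k i j : ℕ) :
    fs n a k i j = 0 ↔ ∀ l ≤ k, cw n a l i j = 0 := by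
  induction k with
  | zero => simp [fs, cw]
  | succ k ih =>
    unfold fs
    split_ifs with h
    · rw [ih] at h
      constructor
      · intro h1 l hl
        rcases Nat.lt_or_ge k l with h2 | h2
        · obtain rfl : l = k + 1 := by omega
          exact h1
        · exact h l h2
      · intro h1
        exact h1 _ le_rfl
    · constructor
      · intro h1
        exact absurd h1 h
      · intro h1
        exact absurd (ih.2 fun l hl => h1 l (by omega)) h

theorem fs_one_iff (n : ℕ) (a : ℕ → ℕ → Bool) (k i j : ℕ) :
    fs n a k i j = 1 ↔ ∃ l ≤ k, cw n a l i j = 1 ∧ ∀ l' < l, cw n a l' i j = 0 := by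
  induction k with
  | zero => simp [fs, cw]
  | succ k ih =>
    unfold fs
    split_ifs with h
    · rw [fs_zero_iff] at h
      constructor
      · intro h1
        exact ⟨k + 1, le_rfl, h1, fun l' hl' => h l' (by omega)⟩
      · rintro ⟨l, hl, h1, h2⟩
        rcases Nat.lt_or_ge k l with h3 | h3
        · obtain rfl : l = k + 1 := by omega
          exact h1
        · have := h l h3
          omega
    · rw [ih]
      constructor
      · rintro ⟨l, hl, h1⟩
        exact ⟨l, by omega, h1⟩
      · rintro ⟨l, hl, h1, h2⟩
        rcases Nat.lt_or_ge k l with h3 | h3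
        · exact absurd ((fs_zero_iff n a k i j).2 fun l' hl' => h2 l' (by omega)) h
        · exact ⟨l, h3, h1, h2⟩

theorem geodetic_iff (ha : Agree a G) :
    Geodetic G ↔ 0 < n ∧ ∀ i j : Fin n, fs n a n i j = 1 := by
  constructor
  · rintro ⟨hc, hu⟩
    have hn : 0 < n := by
      obtain ⟨i⟩ := hc.nonempty
      exact i.pos
    refine ⟨hn, fun i j => ?_⟩
    rw [fs_one_iff]
    obtain ⟨⟨p, hp⟩, hl, hp'⟩ := hu i j
    simp only at hl
    refine ⟨G.dist i j, ?_, ?_, ?_⟩
    · have := hp.length_lt
      simp only [Fintype.card_fin] at this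
      omega
    · rw [(cw_counts ha _ i j).2]
      refine ⟨p, hl, fun q hq => ?_⟩
      have := hp' ⟨q, Walk.isPath_of_length_eq_dist q hq⟩ hq
      exact congrArg Subtype.val this
    · intro l' hl'
      rw [(cw_counts ha _ i j).1]
      intro q hq
      have := dist_le q
      omega
  · rintro ⟨hn, h⟩
    have key : ∀ i j : Fin n, ∃ p : G.Walk i j, p.length = G.dist i j ∧
        ∀ q : G.Walk i j, q.length = G.dist i j → q = p := by
      intro i j
      obtain ⟨l, _, h1, h2⟩ := (fs_one_iff n a n i j).1 (h i j)
      obtain ⟨p, hp, hp'⟩ := (cw_counts ha _ i j).2.1 h1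
      have hd : G.dist i j = l := by
        apply le_antisymm
        · rw [← hp]; exact dist_le p
        · obtain ⟨q, hq⟩ := Reachable.exists_walk_length_eq_dist ⟨p⟩
          by_contra hlt
          exact ((cw_counts ha _ i j).1.1 (h2 (G.dist i j) (by omega))) q hq
      rw [hd]
      exact ⟨p, hp, hp'⟩
    refine ⟨?_, fun i j => ?_⟩
    · rw [connected_iff]
      refine ⟨fun i j => ?_, ⟨⟨0, hn⟩⟩⟩
      obtain ⟨p, _⟩ := key i j
      exact ⟨p⟩
    · obtain ⟨p, hp, hp'⟩ := key i j
      refine ⟨⟨p, Walk.isPath_of_length_eq_dist p hp⟩, hp, fun q hq => ?_⟩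
      exact Subtype.ext (hp' q.1 hq)

end walks

end Pool.Agent.LibGeo
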