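import Pool.Agent.LibGeo.Test

/-!
Whether a graph is geodetic can be decided in polynomial time: computation of the tables.
-/

set_option autoImplicit false

namespace Pool.Agent.LibGeo

open SimpleGraph Pool.Agent.LibComplexity Function Enc

/-- table of a function -/
def tab (n : ℕ) (f : ℕ → ℕ → ℕ) : List (List ℕ) :=
  (List.range n).map fun i => (List.range n).map fun j => f i j

/-- entry of a table -/
def ent (T : List (List ℕ)) (i j : ℕ) : ℕ := (T.getD i []).getD j 0

theorem map_range_getD {β : Type} {n i : ℕ} (g : ℕ → β) (d : β) (hi : i < n) :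
    ((List.range n).map g).getD i d = g i := by
  rw [List.getD_eq_getElem (hn := by simpa using hi)]
  simp

theorem ent_tab {n i j : ℕ} (f : ℕ → ℕ → ℕ) (hi : i < n) (hj : j < n) :
    ent (tab n f) i j = f i j := by
  unfold ent tab
  rw [map_range_getD _ _ hi, map_range_getD _ _ hj]

theorem tab_congr {n : ℕ} {f g : ℕ → ℕ → ℕ} (h : ∀ i < n, ∀ j < n, f i j = g i j) :
    tab n f = tab n g := by
  unfold tab
  apply List.map_congr_left
  intro i hi
  apply List.map_congr_left
  intro j hj
  exact h i (List.mem_range.1 hi) j (List.mem_range.1 hj)

/-- next table of `cw` -/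
def nextT (n : ℕ) (a : ℕ → ℕ → Bool) (T : List (List ℕ)) : List (List ℕ) :=
  tab n fun i j => min 2 ((List.range n).map fun w => if a i w = true then ent T w j else 0).sum

/-- next table of `fs` -/
def nextS (n : ℕ) (a : ℕ → ℕ → Bool) (T S : List (List ℕ)) : List (List ℕ) :=
  tab n fun i j => min 2 (if ent S i j = 0 then ent (nextT n a T) i j else ent S i j)

theorem nextT_cw (n : ℕ) (a : ℕ → ℕ → Bool) (k : ℕ) :
    nextT n a (tab n (cw n a k)) = tab n (cw n a (k + 1)) := by
  unfold nextT
  apply tab_congr
  intro i _ j hj
  show _ = min 2 _
  congr 2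
  apply List.map_congr_left
  intro w hw
  rw [ent_tab _ (List.mem_range.1 hw) hj]

theorem fs_le (n : ℕ) (a : ℕ → ℕ → Bool) (k i j : ℕ) : fs n a k i j ≤ 2 := by
  induction k with
  | zero => simp only [fs]; split_ifs <;> omega
  | succ k ih =>
    simp only [fs]
    split_ifs
    · exact cw_le _ _ _ _ _
    · exact ih

theorem nextS_fs (n : ℕ) (a : ℕ → ℕ → Bool) (k : ℕ) :
    nextS n a (tab n (cw n a k)) (tab n (fs n a k)) = tab n (fs n a (k + 1)) := by
  unfold nextS
  rw [nextT_cw]
  apply tab_congr
  intro i hi j hj
  rw [ent_tab _ hi hj, ent_tab _ hi hj]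
  have h := fs_le n a (k + 1) i j
  simp only [fs] at h ⊢
  omega

/-- one round -/
def round (n : ℕ) (a : ℕ → ℕ → Bool) (s : List (List ℕ) × List (List ℕ)) :
    List (List ℕ) × List (List ℕ) := (nextT n a s.1, nextS n a s.1 s.2)

/-- all the rounds -/
def rounds (n : ℕ) (a : ℕ → ℕ → Bool) : List (List ℕ) × List (List ℕ) :=
  (List.range n).foldl (fun s _ => round n a s)
    (tab n (fun i j => if i = j then 1 else 0), tab n (fun i j => if i = j then 1 else 0))

theorem rounds_eq (n : ℕ) (a : ℕ → ℕ → Bool) :
    rounds n a = (tab n (cw n a n), tab n (fs n a n)) := by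
  have key : ∀ k, (List.range k).foldl (fun s _ => round n a s)
      (tab n (fun i j => if i = j then 1 else 0), tab n (fun i j => if i = j then 1 else 0)) =
      (tab n (cw n a k), tab n (fs n a k)) := by
    intro k
    induction k with
    | zero => rfl
    | succ k ih =>
      rw [List.range_succ, List.foldl_append, ih]
      simp only [List.foldl_cons, List.foldl_nil, round, nextT_cw, nextS_fs]
  exact key n

/-- the test -/
def geoB (n : ℕ) (a : ℕ → ℕ → Bool) : Bool :=
  decide (0 < n) && (List.range n).all fun i => (List.range n).all fun j =>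
    ent (rounds n a).2 i j == 1

theorem geoB_iff {n : ℕ} {a : ℕ → ℕ → Bool} {G : SimpleGraph (Fin n)} (ha : Agree a G) :
    geoB n a = true ↔ Geodetic G := by
  rw [geodetic_iff ha]
  simp only [geoB, Bool.and_eq_true, decide_eq_true_eq, List.all_eq_true, List.mem_range,
    beq_iff_eq, rounds_eq]
  constructor
  · rintro ⟨h1, h2⟩
    refine ⟨h1, fun i j => ?_⟩
    rw [← h2 i i.2 j j.2, ent_tab _ i.2 j.2]
  · rintro ⟨h1, h2⟩
    refine ⟨h1, fun i hi j hj => ?_⟩
    rw [ent_tab _ hi hj]
    exact h2 ⟨i, hi⟩ ⟨j, hj⟩

theorem sz_tab_le {n : ℕ} {f : ℕ → ℕ → ℕ} (h : ∀ i j, f i j ≤ 2) :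
    sz (tab n f) ≤ n * (n * 6 + 1 + 1) + 1 := by
  have h1 : ∀ i, sz ((List.range n).map fun j => f i j) ≤ n * 6 + 1 := by
    intro i
    refine (sz_list_le (B := 5) ?_).trans ?_
    · intro y hy
      obtain ⟨j, _, rfl⟩ := List.mem_map.1 hy
      rw [sz_nat]
      have := h i j
      omega
    · simp
  refine (sz_list_le (B := n * 6 + 1) ?_).trans ?_
  · intro y hy
    obtain ⟨i, _, rfl⟩ := List.mem_map.1 hy
    exact h1 i
  · simp [tab]

section PT

variable {𝒜 : Set Orc}

theorem ptf_nextT : PTf 𝒜 (fun _ (x : (List Bool × ℕ × ℕ) × List (List ℕ)) =>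
    nextT x.1.2.2 (look x.1.1 x.1.2.1 x.1.2.2) x.2) := by
  unfold nextT tab ent look
  with_reducible apply PTf.map
  with_reducible apply PTf.range
  with_reducible apply PTf.snd
  with_reducible apply PTf.snd
  with_reducible apply PTf.fst
  with_reducible apply PTf.id
  with_reducible apply PTf.map
  with_reducible apply PTf.range
  with_reducible apply PTf.snd
  with_reducible apply PTf.snd
  with_reducible apply PTf.fst
  with_reducible apply PTf.fst
  with_reducible apply PTf.id
  with_reducible apply PTf.min
  with_reducible apply PTf.const
  with_reducible apply PTf.sum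
  with_reducible apply PTf.map
  with_reducible apply PTf.range
  with_reducible apply PTf.snd
  with_reducible apply PTf.snd
  with_reducible apply PTf.fst
  with_reducible apply PTf.fst
  with_reducible apply PTf.fst
  with_reducible apply PTf.id
  with_reducible apply PTf.ifP
  with_reducible apply PTf.decide_eq_true'
  with_reducible apply PTf.listGetD
  with_reducible apply PTf.fst
  with_reducible apply PTf.fst
  with_reducible apply PTf.fst
  with_reducible apply PTf.fst
  with_reducible apply PTf.fst
  with_reducible apply PTf.id
  with_reducible apply PTf.add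
  with_reducible apply PTf.fst
  with_reducible apply PTf.snd
  with_reducible apply PTf.fst
  with_reducible apply PTf.fst
  with_reducible apply PTf.fst
  with_reducible apply PTf.fst
  with_reducible apply PTf.id
  with_reducible apply PTf.add
  with_reducible apply PTf.mul
  with_reducible apply PTf.snd
  with_reducible apply PTf.fst
  with_reducible apply PTf.fst
  with_reducible apply PTf.id
  with_reducible apply PTf.snd
  with_reducible apply PTf.snd
  with_reducible apply PTf.fst
  with_reducible apply PTf.fst
  with_reducible apply PTf.fst
  with_reducible apply PTf.fst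
  with_reducible apply PTf.id
  with_reducible apply PTf.snd
  with_reducible apply PTf.id
  with_reducible apply PTf.const
  with_reducible apply PTf.listGetD
  with_reducible apply PTf.listGetD
  with_reducible apply PTf.snd
  with_reducible apply PTf.fst
  with_reducible apply PTf.fst
  with_reducible apply PTf.fst
  with_reducible apply PTf.id
  with_reducible apply PTf.snd
  with_reducible apply PTf.id
  with_reducible apply PTf.const
  with_reducible apply PTf.snd
  with_reducible apply PTf.fst
  with_reducible apply PTf.id
  with_reducible apply PTf.const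
  with_reducible apply PTf.const

theorem ptf_nextS' : PTf 𝒜 (fun _ (x : ℕ × List (List ℕ) × List (List ℕ)) =>
    tab x.1 fun i j => min 2 (if ent x.2.2 i j = 0 then ent x.2.1 i j else ent x.2.2 i j)) := by
  unfold tab ent
  with_reducible apply PTf.map
  with_reducible apply PTf.range
  with_reducible apply PTf.fst
  with_reducible apply PTf.id
  with_reducible apply PTf.map
  with_reducible apply PTf.range
  with_reducible apply PTf.fst
  with_reducible apply PTf.fst
  with_reducible apply PTf.id
  with_reducible apply PTf.min
  with_reducible apply PTf.const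
  with_reducible apply PTf.ifP
  with_reducible apply PTf.decide_eq
  with_reducible apply PTf.listGetD
  with_reducible apply PTf.listGetD
  with_reducible apply PTf.snd
  with_reducible apply PTf.snd
  with_reducible apply PTf.fst
  with_reducible apply PTf.fst
  with_reducible apply PTf.id
  with_reducible apply PTf.snd
  with_reducible apply PTf.fst
  with_reducible apply PTf.id
  with_reducible apply PTf.const
  with_reducible apply PTf.snd
  with_reducible apply PTf.id
  with_reducible apply PTf.const
  with_reducible apply PTf.const
  with_reducible apply PTf.listGetD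
  with_reducible apply PTf.listGetD
  with_reducible apply PTf.fst
  with_reducible apply PTf.snd
  with_reducible apply PTf.fst
  with_reducible apply PTf.fst
  with_reducible apply PTf.id
  with_reducible apply PTf.snd
  with_reducible apply PTf.fst
  with_reducible apply PTf.id
  with_reducible apply PTf.const
  with_reducible apply PTf.snd
  with_reducible apply PTf.id
  with_reducible apply PTf.const
  with_reducible apply PTf.listGetD
  with_reducible apply PTf.listGetD
  with_reducible apply PTf.snd
  with_reducible apply PTf.snd
  with_reducible apply PTf.fst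
  with_reducible apply PTf.fst
  with_reducible apply PTf.id
  with_reducible apply PTf.snd
  with_reducible apply PTf.fst
  with_reducible apply PTf.id
  with_reducible apply PTf.const
  with_reducible apply PTf.snd
  with_reducible apply PTf.id
  with_reducible apply PTf.const

theorem ptf_round : PTf 𝒜 (fun _ (x : (List Bool × ℕ × ℕ) × (List (List ℕ) × List (List ℕ))) =>
    round x.1.2.2 (look x.1.1 x.1.2.1 x.1.2.2) x.2) := by
  unfold round
  have h1 : PTf 𝒜 (fun _ (x : (List Bool × ℕ × ℕ) × (List (List ℕ) × List (List ℕ))) =>
      nextT x.1.2.2 (look x.1.1 x.1.2.1 x.1.2.2) x.2.1) := by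
    exact (ptf_nextT.comp (PTf.id.fst.pair PTf.id.snd.fst)).congr fun _ _ _ => rfl
  refine h1.pair ?_
  exact (ptf_nextS'.comp (PTf.id.fst.snd.snd.pair (h1.pair PTf.id.snd.snd))).congr
    fun _ _ _ => rfl

theorem ptf_rounds : PTf 𝒜 (fun _ (x : List Bool × ℕ × ℕ) =>
    rounds x.2.2 (look x.1 x.2.1 x.2.2)) := by
  unfold rounds
  refine PTf.foldl_grow (g := fun _ (x : List Bool × ℕ × ℕ) (s : List (List ℕ) × List (List ℕ))
    (_ : ℕ) => round x.2.2 (look x.1 x.2.1 x.2.2) s)
    (d := fun _ x => (x.2.2 * (x.2.2 * 6 + 1 + 1) + 1) + (x.2.2 * (x.2.2 * 6 + 1 + 1) + 1) + 1)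
    ?_ ?_ ?_ ?_ ?_
  · with_reducible apply PTf.range
    with_reducible apply PTf.snd
    with_reducible apply PTf.snd
    with_reducible apply PTf.id
  · unfold tab
    with_reducible apply PTf.pair
    with_reducible apply PTf.map
    with_reducible apply PTf.range
    with_reducible apply PTf.snd
    with_reducible apply PTf.snd
    with_reducible apply PTf.id
    with_reducible apply PTf.map
    with_reducible apply PTf.range
    with_reducible apply PTf.snd
    with_reducible apply PTf.snd
    with_reducible apply PTf.fst
    with_reducible apply PTf.id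
    with_reducible apply PTf.ifP
    with_reducible apply PTf.decide_eq
    with_reducible apply PTf.snd
    with_reducible apply PTf.fst
    with_reducible apply PTf.id
    with_reducible apply PTf.snd
    with_reducible apply PTf.id
    with_reducible apply PTf.const
    with_reducible apply PTf.const
    with_reducible apply PTf.map
    with_reducible apply PTf.range
    with_reducible apply PTf.snd
    with_reducible apply PTf.snd
    with_reducible apply PTf.id
    with_reducible apply PTf.map
    with_reducible apply PTf.range
    with_reducible apply PTf.snd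
    with_reducible apply PTf.snd
    with_reducible apply PTf.fst
    with_reducible apply PTf.id
    with_reducible apply PTf.ifP
    with_reducible apply PTf.decide_eq
    with_reducible apply PTf.snd
    with_reducible apply PTf.fst
    with_reducible apply PTf.id
    with_reducible apply PTf.snd
    with_reducible apply PTf.id
    with_reducible apply PTf.const
    with_reducible apply PTf.const
  · exact (ptf_round.comp (PTf.id.fst.pair PTf.id.snd.fst)).congr fun _ _ _ => rfl
  · have h0 : PB 𝒜 (fun _ (x : List Bool × ℕ × ℕ) => x.2.2) := PB.nat PTf.id.snd.snd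
    have h1 : PB 𝒜 (fun _ (x : List Bool × ℕ × ℕ) => x.2.2 * (x.2.2 * 6 + 1 + 1) + 1) :=
      (h0.mul (((h0.mul (PB.const 6)).add (PB.const 1)).add (PB.const 1))).add (PB.const 1)
    exact (h1.add h1).add (PB.const 1)
  · intro A _ x s y _
    unfold round
    rw [sz_pair]
    have h1 : sz (nextT x.2.2 (look x.1 x.2.1 x.2.2) s.1) ≤
      x.2.2 * (x.2.2 * 6 + 1 + 1) + 1 := sz_tab_le fun i j => min_le_left _ _
    have h2 : sz (nextS x.2.2 (look x.1 x.2.1 x.2.2) s.1 s.2) ≤
      x.2.2 * (x.2.2 * 6 + 1 + 1) + 1 := sz_tab_le fun i j => min_le_left _ _
    omega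

theorem ptf_geoB : PTf 𝒜 (fun _ (x : List Bool × ℕ × ℕ) =>
    geoB x.2.2 (look x.1 x.2.1 x.2.2)) := by
  have h1 : PTf 𝒜 (fun _ (x : ℕ × List (List ℕ) × List (List ℕ)) =>
      decide (0 < x.1) && (List.range x.1).all fun i => (List.range x.1).all fun j =>
        ent x.2.2 i j == 1) := by
    unfold ent
    with_reducible apply PTf.band
    with_reducible apply PTf.decide_lt
    with_reducible apply PTf.const
    with_reducible apply PTf.fst
    with_reducible apply PTf.id
    with_reducible apply PTf.all
    with_reducible apply PTf.range
    with_reducible apply PTf.fst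
    with_reducible apply PTf.id
    with_reducible apply PTf.all
    with_reducible apply PTf.range
    with_reducible apply PTf.fst
    with_reducible apply PTf.fst
    with_reducible apply PTf.id
    with_reducible apply PTf.beq
    with_reducible apply PTf.listGetD
    with_reducible apply PTf.listGetD
    with_reducible apply PTf.snd
    with_reducible apply PTf.snd
    with_reducible apply PTf.fst
    with_reducible apply PTf.fst
    with_reducible apply PTf.id
    with_reducible apply PTf.snd
    with_reducible apply PTf.fst
    with_reducible apply PTf.id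
    with_reducible apply PTf.const
    with_reducible apply PTf.snd
    with_reducible apply PTf.id
    with_reducible apply PTf.const
    with_reducible apply PTf.const
  exact (h1.comp (PTf.id.snd.snd.pair ptf_rounds)).congr fun _ _ _ => rfl

end PT

end Pool.Agent.LibGeo
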